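import Pool.Agent.W948.OP.Red

/-!
# A satisfying assignment yields disjoint odd paths
-/

namespace Pool.Agent.NPC.OddP

open Pool.Agent.NPC

theorem adj_joins {E : List (ℕ × ℕ)} {u v : ℕ} (h : Adj E u v) : ∃ e, Joins E e u v := by
  rcases h with h | h
  · obtain ⟨e, he⟩ := List.mem_iff_getElem?.1 h
    exact ⟨e, Or.inl he⟩
  · obtain ⟨e, he⟩ := List.mem_iff_getElem?.1 h
    exact ⟨e, Or.inr he⟩

/-- A sequence of adjacent vertices is the vertex sequence of a walk. -/
theorem exists_steps {E : List (ℕ × ℕ)} : ∀ (l : List ℕ) (u : ℕ), List.IsChain (Adj E) (u :: l) →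
    ∃ s : List (ℕ × ℕ), IsWalk E u s ∧ s.map Prod.snd = l
  | [], _, _ => ⟨[], trivial, rfl⟩
  | v :: l, u, h => by
    rw [List.isChain_cons_cons] at h
    obtain ⟨s, hs, hl⟩ := exists_steps l v h.2
    obtain ⟨e, he⟩ := adj_joins h.1
    exact ⟨(e, v) :: s, ⟨he, hs⟩, by simp [hl]⟩

theorem exists_paths {E : List (ℕ × ℕ)} : ∀ (Ls : List (List ℕ)),
    (∀ L ∈ Ls, L ≠ [] ∧ List.IsChain (Adj E) L) →
    ∃ P : List Pth, P.map verts = Ls ∧ ∀ p ∈ P, IsWalk E p.1 p.2
  | [], _ => ⟨[], rfl, by simp⟩
  | L :: Ls, h => by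
    obtain ⟨P, hP, hw⟩ := exists_paths Ls (fun L' hL' => h L' (List.mem_cons_of_mem _ hL'))
    obtain ⟨hne, hc⟩ := h L (by simp)
    match L, hne, hc with
    | u :: l, _, hc =>
      obtain ⟨s, hs, hl⟩ := exists_steps l u hc
      refine ⟨(u, s) :: P, by simp [verts, hl, hP], ?_⟩
      intro p hp
      rcases List.mem_cons.1 hp with rfl | hp
      · exact hs
      · exact hw p hp

/-- Two paths with disjoint interiors, one of them of length at least two, do not use the same
edges. -/
theorem not_sameEdges {G : MG} {X Y : List ℕ} {p q : Pth} (hp : IsXYPath G X Y p)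
    (hq : IsXYPath G X Y q) (hl : 2 ≤ len p) (hd : InternallyDisjoint p q) : ¬ SameEdges p q := by
  rintro ⟨h1, _⟩
  obtain ⟨u, s⟩ := p
  match s, hl with
  | [(_, _)], hl => simp [len] at hl
  | (e, v) :: (e', v') :: s, _ =>
    have hv : v ∈ inner (u, (e, v) :: (e', v') :: s) := by
      simp [inner, verts]
    have he : e ∈ edges q := h1 e (by simp [edges])
    obtain ⟨a, b, h3, h4, h5⟩ := hq.1.2.1.joins_of_mem he
    have h6 : Joins G.2 e u v := hp.1.2.1.1
    have h7 : v ∈ verts q := by
      rcases h6.eq_or h3 with ⟨_, h⟩ | ⟨_, h⟩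
      · rw [h]; exact h5
      · rw [h]; exact h4
    rcases mem_verts_cases h7 with h | h | h
    · exact (hp.2.2.2 v hv).1 (h ▸ hq.2.1)
    · exact (hp.2.2.2 v hv).2 (h ▸ hq.2.2.1)
    · exact hd v hv h

section

variable (φ : List (Lit ℕ × Lit ℕ × Lit ℕ)) (τ : ℕ → Bool) (f : ℕ → Bool × ℕ)

/-- The vertices of the path of the variable `i`. -/
def pathV (m i : ℕ) : List ℕ :=
  code 0 i 0 :: code 1 i 0 :: ((List.range (2 * m + 2)).map (lobe (!τ i) i) ++
    [code 4 i 0, code 5 i 0])

/-- The vertices of the path of the clause `j`. -/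
def pathC (j : ℕ) : List ℕ :=
  [code 6 j 0, code 7 j 0, lobe (f j).1 (f j).2 (2 * j + 1), lobe (f j).1 (f j).2 (2 * j + 2),
    code 8 j 0, code 9 j 0]

/-- All vertex sequences. -/
def allPaths (m : ℕ) : List (List ℕ) :=
  (List.range (3 * m)).map (pathV τ m) ++ (List.range m).map (pathC f)

end

theorem adj_iff {φ : List (Lit ℕ × Lit ℕ × Lit ℕ)} {u v : ℕ} :
    Adj (allEdges φ) u v ↔ EK φ u v ∨ EK φ v u := by
  unfold Adj
  rw [mem_allEdges, mem_allEdges]

theorem chain_lobe {φ : List (Lit ℕ × Lit ℕ × Lit ℕ)} {i : ℕ} (b : Bool)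
    (hi : i < 3 * φ.length) : ∀ k ≤ 2 * φ.length + 1,
    List.IsChain (Adj (allEdges φ)) (code 0 i 0 :: code 1 i 0 ::
      ((List.range (k + 1)).map (lobe b i))) ∧
    (code 0 i 0 :: code 1 i 0 :: ((List.range (k + 1)).map (lobe b i))).getLast? =
      some (lobe b i k) := by
  intro k
  induction k with
  | zero =>
    intro _
    refine ⟨?_, by simp⟩
    simp only [zero_add, List.range_one, List.map_cons, List.map_nil]
    rw [List.isChain_cons_cons, List.isChain_cons_cons]
    exact ⟨adj_iff.2 (Or.inl (EK.e1 i hi)), adj_iff.2 (Or.inl (EK.e2 i b hi)), by simp⟩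
  | succ k ih =>
    intro hk
    obtain ⟨h1, h2⟩ := ih (by omega)
    have e : code 0 i 0 :: code 1 i 0 :: ((List.range (k + 1 + 1)).map (lobe b i)) =
        (code 0 i 0 :: code 1 i 0 :: ((List.range (k + 1)).map (lobe b i))) ++
          [lobe b i (k + 1)] := by
      rw [List.range_succ]
      simp
    rw [e]
    refine ⟨?_, List.getLast?_concat⟩
    rw [List.isChain_append]
    refine ⟨h1, by simp, ?_⟩
    intro x hx y hy
    rw [h2] at hx
    simp only [Option.mem_def, Option.some.injEq] at hx
    simp only [List.head?_cons, Option.mem_def, Option.some.injEq] at hy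
    subst hx hy
    exact adj_iff.2 (Or.inl (EK.e5 i k b hi (by omega)))

theorem chain_pathV {φ : List (Lit ℕ × Lit ℕ × Lit ℕ)} {i : ℕ} (τ : ℕ → Bool)
    (hi : i < 3 * φ.length) : List.IsChain (Adj (allEdges φ)) (pathV τ φ.length i) := by
  obtain ⟨h1, h2⟩ := chain_lobe (!τ i) hi (2 * φ.length + 1) le_rfl
  have e : pathV τ φ.length i = (code 0 i 0 :: code 1 i 0 ::
      ((List.range (2 * φ.length + 1 + 1)).map (lobe (!τ i) i))) ++ [code 4 i 0, code 5 i 0] := by
    simp [pathV]
  rw [e, List.isChain_append]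
  refine ⟨h1, ?_, ?_⟩
  · rw [List.isChain_cons_cons]
    exact ⟨adj_iff.2 (Or.inl (EK.e4 i hi)), by simp⟩
  · intro x hx y hy
    rw [h2] at hx
    simp only [Option.mem_def, Option.some.injEq] at hx
    simp only [List.head?_cons, Option.mem_def, Option.some.injEq] at hy
    subst hx hy
    exact adj_iff.2 (Or.inl (EK.e3 i _ hi))

theorem chain_pathC {φ : List (Lit ℕ × Lit ℕ × Lit ℕ)} {j : ℕ} {f : ℕ → Bool × ℕ}
    (hb : Bounded3 φ) (hj : j < φ.length) (hf : f j ∈ lits φ[j]) :
    List.IsChain (Adj (allEdges φ)) (pathC f j) := by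
  unfold pathC
  have := lits_lt hb hj hf
  repeat rw [List.isChain_cons_cons]
  refine ⟨adj_iff.2 (Or.inl (EK.e6 j hj)), adj_iff.2 (Or.inl (EK.e8 j hj _ hf)),
    adj_iff.2 (Or.inl (EK.e5 _ _ _ this (by omega))), adj_iff.2 (Or.inl (EK.e9 j hj _ hf)),
    adj_iff.2 (Or.inl (EK.e7 j hj)), by simp⟩

theorem mem_pathV {τ : ℕ → Bool} {m i v : ℕ} : v ∈ pathV τ m i ↔ v = code 0 i 0 ∨
    v = code 1 i 0 ∨ (∃ p < 2 * m + 2, v = lobe (!τ i) i p) ∨ v = code 4 i 0 ∨ v = code 5 i 0 := by
  simp only [pathV, List.mem_cons, List.mem_append, List.mem_map, List.mem_range,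
    List.not_mem_nil, or_false]
  constructor
  · rintro (h | h | ⟨p, hp, rfl⟩ | h | h)
    · exact Or.inl h
    · exact Or.inr (Or.inl h)
    · exact Or.inr (Or.inr (Or.inl ⟨p, hp, rfl⟩))
    · exact Or.inr (Or.inr (Or.inr (Or.inl h)))
    · exact Or.inr (Or.inr (Or.inr (Or.inr h)))
  · rintro (h | h | ⟨p, hp, rfl⟩ | h | h)
    · exact Or.inl h
    · exact Or.inr (Or.inl h)
    · exact Or.inr (Or.inr (Or.inl ⟨p, hp, rfl⟩))
    · exact Or.inr (Or.inr (Or.inr (Or.inl h)))
    · exact Or.inr (Or.inr (Or.inr (Or.inr h)))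

theorem inner_pathV {τ : ℕ → Bool} {m i v : ℕ} (h : v ∈ (pathV τ m i).tail.dropLast) :
    v = code 1 i 0 ∨ (∃ p < 2 * m + 2, v = lobe (!τ i) i p) ∨ v = code 4 i 0 := by
  have e : (pathV τ m i).tail.dropLast = code 1 i 0 ::
      ((List.range (2 * m + 2)).map (lobe (!τ i) i) ++ [code 4 i 0]) := by
    have : (pathV τ m i).tail = (code 1 i 0 ::
      ((List.range (2 * m + 2)).map (lobe (!τ i) i) ++ [code 4 i 0])) ++ [code 5 i 0] := by
      simp [pathV]
    rw [this, List.dropLast_concat]
  rw [e] at h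
  simp only [List.mem_cons, List.mem_append, List.mem_map, List.mem_range,
    List.not_mem_nil, or_false] at h
  rcases h with h | ⟨p, hp, rfl⟩ | h
  · exact Or.inl h
  · exact Or.inr (Or.inl ⟨p, hp, rfl⟩)
  · exact Or.inr (Or.inr h)

theorem inner_pathC {f : ℕ → Bool × ℕ} {j v : ℕ} (h : v ∈ (pathC f j).tail.dropLast) :
    v = code 7 j 0 ∨ v = lobe (f j).1 (f j).2 (2 * j + 1) ∨ v = lobe (f j).1 (f j).2 (2 * j + 2) ∨
      v = code 8 j 0 := by
  simpa [pathC] using h

theorem nodup_pathV (τ : ℕ → Bool) (m i : ℕ) : (pathV τ m i).Nodup := by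
  have h1 : ∀ (b : Bool) (t i p : ℕ), (t = 0 ∨ t = 1 ∨ t = 4 ∨ t = 5) → lobe b i p ≠ code t i 0 := by
    intro b t i p ht h
    have := (code_inj.1 h).1
    have h3 := lk_ne (b := b)
    omega
  unfold pathV
  rw [List.nodup_cons, List.nodup_cons, List.nodup_append]
  refine ⟨?_, ?_, List.Nodup.map (fun p q h => (lobe_inj.1 h).2.2) List.nodup_range, ?_, ?_⟩
  · simp only [List.mem_cons, List.mem_append, List.mem_map, List.mem_range, List.not_mem_nil,
      or_false, not_or, not_exists, not_and]
    exact ⟨by simp [code_inj], fun p _ => h1 _ _ _ _ (by simp), by simp [code_inj],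
      by simp [code_inj]⟩
  · simp only [List.mem_cons, List.mem_append, List.mem_map, List.mem_range, List.not_mem_nil,
      or_false, not_or, not_exists, not_and]
    exact ⟨fun p _ => h1 _ _ _ _ (by simp), by simp [code_inj], by simp [code_inj]⟩
  · simp [code_inj]
  · intro a ha b hb
    simp only [List.mem_map, List.mem_range] at ha
    obtain ⟨p, _, rfl⟩ := ha
    simp only [List.mem_cons, List.not_mem_nil, or_false] at hb
    rcases hb with rfl | rfl
    · exact h1 _ _ _ _ (by simp)
    · exact h1 _ _ _ _ (by simp)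

theorem nodup_pathC (f : ℕ → Bool × ℕ) (j : ℕ) : (pathC f j).Nodup := by
  have h3 := lk_ne (b := (f j).1)
  unfold pathC
  simp only [List.nodup_cons, List.mem_cons, List.not_mem_nil, or_false, not_or, not_false_eq_true,
    List.nodup_nil, and_true, lobe, code_inj]
  omega

theorem getLastD_pathV (τ : ℕ → Bool) (m i : ℕ) : (pathV τ m i).getLastD 0 = code 5 i 0 := by
  have : pathV τ m i = (code 0 i 0 :: code 1 i 0 ::
      ((List.range (2 * m + 2)).map (lobe (!τ i) i) ++ [code 4 i 0])) ++ [code 5 i 0] := by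
    simp [pathV]
  rw [this, List.getLastD_concat]

theorem complete {φ : List (Lit ℕ × Lit ℕ × Lit ℕ)} (hb : Bounded3 φ) (h : SAT3 φ) :
    HasOddPaths (red φ) := by
  obtain ⟨τ, hτ⟩ := h
  have hl : ∀ j, ∃ l : Bool × ℕ, ∀ hj : j < φ.length, l ∈ lits φ[j] ∧ τ l.2 = l.1 := by
    intro j
    by_cases hj : j < φ.length
    · rcases hτ _ (List.getElem_mem hj) with h | h | h
      · exact ⟨φ[j].1, fun _ => ⟨by simp [lits], h⟩⟩
      · exact ⟨φ[j].2.1, fun _ => ⟨by simp [lits], h⟩⟩
      · exact ⟨φ[j].2.2, fun _ => ⟨by simp [lits], h⟩⟩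
    · exact ⟨(true, 0), fun h => absurd h hj⟩
  choose f hf using hl
  obtain ⟨P, hP, hw⟩ := exists_paths (E := allEdges φ) (allPaths τ f φ.length) (by
    intro L hL
    simp only [allPaths, List.mem_append, List.mem_map, List.mem_range] at hL
    rcases hL with ⟨i, hi, rfl⟩ | ⟨j, hj, rfl⟩
    · exact ⟨by simp [pathV], chain_pathV τ hi⟩
    · exact ⟨by simp [pathC], chain_pathC hb hj (hf j hj).1⟩)
  have hmem : ∀ p ∈ P, (∃ i < 3 * φ.length, verts p = pathV τ φ.length i) ∨
      ∃ j < φ.length, verts p = pathC f j := by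
    intro p hp
    have : verts p ∈ allPaths τ f φ.length := by rw [← hP]; exact List.mem_map_of_mem hp
    simp only [allPaths, List.mem_append, List.mem_map, List.mem_range] at this
    rcases this with ⟨i, hi, h⟩ | ⟨j, hj, h⟩
    · exact Or.inl ⟨i, hi, h.symm⟩
    · exact Or.inr ⟨j, hj, h.symm⟩
  have hXY : ∀ p ∈ P, IsXYPath (red φ).1 (red φ).2.2.1 (red φ).2.2.2 p ∧ Odd (len p) ∧
      2 ≤ len p := by
    intro p hp
    have hlen : len p + 1 = (verts p).length := by simp [len, verts]
    have hhead : (verts p).head? = some p.1 := by simp [verts]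
    rcases hmem p hp with ⟨i, hi, h⟩ | ⟨j, hj, h⟩
    · have h0 : p.1 = code 0 i 0 := by
        rw [h] at hhead; simp only [pathV, List.head?_cons, Option.some.injEq] at hhead
        exact hhead.symm
      refine ⟨⟨⟨?_, hw p hp, ?_⟩, ?_, ?_, ?_⟩, ?_, ?_⟩
      · rw [h0]; exact mem_allVerts.2 (Or.inl ⟨i, hi, by simp⟩)
      · rw [h]; exact nodup_pathV _ _ _
      · rw [h0]; exact mem_setX.2 (Or.inl ⟨i, hi, rfl⟩)
      · rw [final, h, getLastD_pathV]; exact mem_setY.2 (Or.inl ⟨i, hi, rfl⟩)
      · intro v hv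
        rw [inner, h] at hv
        simp only [red]
        rw [mem_setX, mem_setY]
        rcases inner_pathV hv with rfl | ⟨p, _, rfl⟩ | rfl
        · simp [code_inj]
        · have h3 := lk_ne (b := !τ i)
          simp only [lobe, code_inj]
          constructor
          · rintro (⟨i', _, h4, _⟩ | ⟨i', _, h4, _⟩) <;> omega
          · rintro (⟨i', _, h4, _⟩ | ⟨i', _, h4, _⟩) <;> omega
        · simp [code_inj]
      · rw [h] at hlen
        simp only [pathV, List.length_cons, List.length_append, List.length_map,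
          List.length_range, List.length_nil] at hlen
        exact ⟨φ.length + 2, by omega⟩
      · rw [h] at hlen
        simp only [pathV, List.length_cons, List.length_append, List.length_map,
          List.length_range, List.length_nil] at hlen
        omega
    · have h0 : p.1 = code 6 j 0 := by
        rw [h] at hhead; simp only [pathC, List.head?_cons, Option.some.injEq] at hhead
        exact hhead.symm
      refine ⟨⟨⟨?_, hw p hp, ?_⟩, ?_, ?_, ?_⟩, ?_, ?_⟩
      · rw [h0]; exact mem_allVerts.2 (Or.inr ⟨j, hj, by simp⟩)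
      · rw [h]; exact nodup_pathC _ _
      · rw [h0]; exact mem_setX.2 (Or.inr ⟨j, hj, rfl⟩)
      · rw [final, h]; exact mem_setY.2 (Or.inr ⟨j, hj, rfl⟩)
      · intro v hv
        rw [inner, h] at hv
        simp only [red]
        rw [mem_setX, mem_setY]
        have h3 := lk_ne (b := (f j).1)
        rcases inner_pathC hv with rfl | rfl | rfl | rfl
        · simp [code_inj]
        · simp only [lobe, code_inj]
          constructor
          · rintro (⟨i', _, h4, _⟩ | ⟨i', _, h4, _⟩) <;> omega
          · rintro (⟨i', _, h4, _⟩ | ⟨i', _, h4, _⟩) <;> omega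
        · simp only [lobe, code_inj]
          constructor
          · rintro (⟨i', _, h4, _⟩ | ⟨i', _, h4, _⟩) <;> omega
          · rintro (⟨i', _, h4, _⟩ | ⟨i', _, h4, _⟩) <;> omega
        · simp [code_inj]
      · rw [h] at hlen
        simp only [pathC, List.length_cons, List.length_nil] at hlen
        exact ⟨2, by omega⟩
      · rw [h] at hlen
        simp only [pathC, List.length_cons, List.length_nil] at hlen
        omega
  have hpw : P.Pairwise (fun p q => InternallyDisjoint p q) := by
    have h1 : (P.map verts).Pairwise (fun L M => ∀ v ∈ L.tail.dropLast, v ∉ M.tail.dropLast) := by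
      rw [hP, allPaths, List.pairwise_append, List.pairwise_map, List.pairwise_map]
      refine ⟨?_, ?_, ?_⟩
      · refine List.Pairwise.imp ?_ List.pairwise_lt_range
        intro i i' hii v hv hv'
        rcases inner_pathV hv with rfl | ⟨p, _, rfl⟩ | rfl <;>
          rcases inner_pathV hv' with h | ⟨p', _, h⟩ | h <;>
          (try unfold lobe at h) <;> rw [code_inj] at h <;> omega
      · refine List.Pairwise.imp_of_mem ?_ List.pairwise_lt_range
        intro j j' _ _ hjj v hv hv'
        have g1 := lk_ne (b := (f j).1)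
        have g2 := lk_ne (b := (f j').1)
        rcases inner_pathC hv with rfl | rfl | rfl | rfl <;>
          rcases inner_pathC hv' with h | h | h | h <;>
          (try unfold lobe at h) <;> rw [code_inj] at h <;> omega
      · intro L hL M hM v hv hv'
        simp only [List.mem_map, List.mem_range] at hL hM
        obtain ⟨i, hi, rfl⟩ := hL
        obtain ⟨j, hj, rfl⟩ := hM
        have g2 := lk_ne (b := (f j).1)
        have g3 := lk_ne (b := !τ i)
        rcases inner_pathV hv with rfl | ⟨p, _, rfl⟩ | rfl <;>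
          rcases inner_pathC hv' with h | h | h | h
        · rw [code_inj] at h; omega
        · unfold lobe at h; rw [code_inj] at h; omega
        · unfold lobe at h; rw [code_inj] at h; omega
        · rw [code_inj] at h; omega
        · unfold lobe at h; rw [code_inj] at h; omega
        · rw [lobe_inj] at h
          obtain ⟨h1, h2, _⟩ := h
          have h4 := (hf j hj).2
          rw [← h2, ← h1] at h4
          cases hh : τ i <;> rw [hh] at h4 <;> exact absurd h4 (by decide)
        · rw [lobe_inj] at h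
          obtain ⟨h1, h2, _⟩ := h
          have h4 := (hf j hj).2
          rw [← h2, ← h1] at h4
          cases hh : τ i <;> rw [hh] at h4 <;> exact absurd h4 (by decide)
        · unfold lobe at h; rw [code_inj] at h; omega
        · rw [code_inj] at h; omega
        · unfold lobe at h; rw [code_inj] at h; omega
        · unfold lobe at h; rw [code_inj] at h; omega
        · rw [code_inj] at h; omega
    rw [List.pairwise_map] at h1
    exact h1
  refine ⟨P, ?_, fun p hp => ⟨(hXY p hp).1, (hXY p hp).2.1⟩, ?_⟩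
  · have := congrArg List.length hP
    simpa [allPaths, red] using this
  · refine List.Pairwise.imp_of_mem ?_ hpw
    intro p q hp hq h
    exact ⟨not_sameEdges (hXY p hp).1 (hXY q hq).1 (hXY p hp).2.2 h, h⟩

end Pool.Agent.NPC.OddP
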