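import Pool.Agent.NPC.Classes

/-!
# The disjoint odd paths problem: definitions

Graphs may have loops and parallel edges: a graph is a list of vertices together with a list of
edges, and an edge is known by its position in the list.
-/

namespace Pool.Agent.NPC.OddP

open Pool.Agent.NPC

/-- A graph: the list of its vertices and the list of its edges (each given by its two ends, in
either order; the two ends may be equal, and a pair may occur several times). -/
abbrev MG : Type := List ℕ × List (ℕ × ℕ)

/-- A candidate for a path: the first vertex, and the list of the steps, each step being the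
number of the edge that is used (its position in the list of edges) and the next vertex. -/
abbrev Pth : Type := ℕ × List (ℕ × ℕ)

/-- The edge number `e` joins `u` and `v`. -/
def Joins (E : List (ℕ × ℕ)) (e u v : ℕ) : Prop := E[e]? = some (u, v) ∨ E[e]? = some (v, u)

/-- The steps lead, edge by edge, from the vertex `u` on. -/
def IsWalk (E : List (ℕ × ℕ)) : ℕ → List (ℕ × ℕ) → Prop
  | _, [] => True
  | u, (e, v) :: s => Joins E e u v ∧ IsWalk E v s

/-- The vertices of a path, in their order. -/
def verts (p : Pth) : List ℕ := p.1 :: p.2.map Prod.snd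

/-- The numbers of the edges of a path, in their order. -/
def edges (p : Pth) : List ℕ := p.2.map Prod.fst

/-- The length of a path: its number of edges. -/
def len (p : Pth) : ℕ := p.2.length

/-- The last vertex of a path. -/
def final (p : Pth) : ℕ := (verts p).getLastD 0

/-- The internal vertices of a path: all but the first one and the last one. -/
def inner (p : Pth) : List ℕ := (verts p).tail.dropLast

/-- `p` is a path of the graph `G`: consecutive vertices are joined by the edge of the step, and no
vertex is repeated. -/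
def IsPath (G : MG) (p : Pth) : Prop := p.1 ∈ G.1 ∧ IsWalk G.2 p.1 p.2 ∧ (verts p).Nodup

/-- `p` is an `(X,Y)`-path: the first vertex is in `X`, the last one in `Y`, no internal vertex is
in `X` or `Y`. -/
def IsXYPath (G : MG) (X Y : List ℕ) (p : Pth) : Prop :=
  IsPath G p ∧ p.1 ∈ X ∧ final p ∈ Y ∧ ∀ v ∈ inner p, v ∉ X ∧ v ∉ Y

/-- The paths `p` and `q` use the same edges. -/
def SameEdges (p q : Pth) : Prop := (∀ e ∈ edges p, e ∈ edges q) ∧ ∀ e ∈ edges q, e ∈ edges p

/-- No vertex is internal to both paths. -/
def InternallyDisjoint (p q : Pth) : Prop := ∀ v ∈ inner p, v ∉ inner q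

/-- Instances: a graph, a number `k`, and two lists of vertices `X` and `Y`. -/
abbrev Inst : Type := MG × ℕ × List ℕ × List ℕ

/-- Well-formed instances: the ends of all edges are vertices, `k` is positive, and `X` and `Y` are
sets of `k` vertices (lists of `k` different vertices). -/
def Valid (I : Inst) : Prop :=
  (∀ e ∈ I.1.2, e.1 ∈ I.1.1 ∧ e.2 ∈ I.1.1) ∧ 0 < I.2.1 ∧
  (I.2.2.1.Nodup ∧ I.2.2.1.length = I.2.1 ∧ ∀ x ∈ I.2.2.1, x ∈ I.1.1) ∧
  (I.2.2.2.Nodup ∧ I.2.2.2.length = I.2.1 ∧ ∀ y ∈ I.2.2.2, y ∈ I.1.1)

/-- There are `k` pairwise different and pairwise internally disjoint `(X,Y)`-paths of odd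
length. -/
def HasOddPaths (I : Inst) : Prop :=
  ∃ P : List Pth, P.length = I.2.1 ∧ (∀ p ∈ P, IsXYPath I.1 I.2.2.1 I.2.2.2 p ∧ Odd (len p)) ∧
    P.Pairwise (fun p q => ¬ SameEdges p q ∧ InternallyDisjoint p q)

/-- The decision problem ODD-PATHS. -/
def OddPaths (I : Inst) : Prop := Valid I ∧ HasOddPaths I

/-! ### Basic facts -/

theorem verts_ne_nil (p : Pth) : verts p ≠ [] := by simp [verts]

theorem start_mem (p : Pth) : p.1 ∈ verts p := by simp [verts]

theorem final_mem (p : Pth) : final p ∈ verts p := by
  unfold final
  rw [List.getLastD_eq_getLast?, List.getLast?_eq_some_getLast (verts_ne_nil p)]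
  exact List.getLast_mem _

theorem inner_sub {p : Pth} {v : ℕ} (h : v ∈ inner p) : v ∈ verts p :=
  List.mem_of_mem_tail (List.mem_of_mem_dropLast h)

theorem mem_verts_cases {p : Pth} {v : ℕ} (h : v ∈ verts p) :
    v = p.1 ∨ v = final p ∨ v ∈ inner p := by
  obtain ⟨u, s⟩ := p
  rcases List.eq_nil_or_concat' s with rfl | ⟨s', x, rfl⟩
  · left; simpa [verts] using h
  · simp only [verts, List.map_append, List.map_cons, List.map_nil, List.mem_cons, List.mem_append,
      List.not_mem_nil, or_false] at h
    rcases h with h | h | h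
    · exact Or.inl h
    · right; right
      simp [inner, verts]
      simpa using h
    · right; left
      have : u :: (List.map Prod.snd s' ++ [x.2]) = (u :: List.map Prod.snd s') ++ [x.2] := rfl
      simp only [final, verts, List.map_append, List.map_cons, List.map_nil]
      rw [this, List.getLastD_concat, h]

theorem IsWalk.joins_of_mem {E : List (ℕ × ℕ)} : ∀ {s : List (ℕ × ℕ)} {u e : ℕ}, IsWalk E u s →
    e ∈ s.map Prod.fst → ∃ a b, Joins E e a b ∧ a ∈ u :: s.map Prod.snd ∧
      b ∈ u :: s.map Prod.snd
  | [], _, _, _, h => by simp at h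
  | (e', v) :: s, u, e, hw, h => by
    obtain ⟨h1, h2⟩ := hw
    simp only [List.map_cons, List.mem_cons] at h
    rcases h with rfl | h
    · exact ⟨u, v, h1, by simp, by simp⟩
    · obtain ⟨a, b, h3, h4, h5⟩ := h2.joins_of_mem h
      refine ⟨a, b, h3, ?_, ?_⟩
      · simp only [List.map_cons]; exact List.mem_cons_of_mem _ h4
      · simp only [List.map_cons]; exact List.mem_cons_of_mem _ h5

theorem Joins.eq_or {E : List (ℕ × ℕ)} {e a b c d : ℕ} (h : Joins E e a b) (h' : Joins E e c d) :
    (a = c ∧ b = d) ∨ (a = d ∧ b = c) := by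
  rcases h with h | h <;> rcases h' with h' | h' <;> rw [h] at h' <;>
    simp only [Option.some.injEq, Prod.mk.injEq] at h' <;> tauto

end Pool.Agent.NPC.OddP
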