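import Pool.Agent.W948.OP.Mem
import Pool.Agent.H622R2.CoNP

/-!
# ODD-PATHS is NP-complete, so it is in coNP if and only if NP = coNP
-/

namespace Pool.Agent.NPC.OddP

open Pool.Agent.NPC

/-- Reductions from all languages in `NP`, with well-formed instances on bipartite graphs. -/
theorem hard_bipartite (L : Set (List Bool)) (hL : InNP L) :
    ∃ f : List Bool → Inst, PolyTime (fun x => bits (f x)) ∧
      ∀ x, Valid (f x) ∧ Bipartite (f x).1 ∧ (x ∈ L ↔ HasOddPaths (f x)) := by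
  obtain ⟨f, hf, hpr, hfL⟩ := hardPr_oddPaths L hL
  exact ⟨f, PC.toPolyTime hf, fun x => ⟨(hpr x).1, (hpr x).2,
    (hfL x).trans ⟨fun h => h.2, fun h => ⟨(hpr x).1, h⟩⟩⟩⟩

theorem npHardP_oddPaths : NPHardP OddPaths := hardPr_oddPaths.toHardI.toNPHardP

theorem inCoNPP_iff : InCoNPP OddPaths ↔ ∀ L : Set (List Bool), InNP L ↔ InCoNP L :=
  Pool.Agent.H622R2.inCoNP_iff_of_complete inNPP_oddPaths npHardP_oddPaths

/-- Certificates for the NO-instances among the well-formed instances. -/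
theorem cert_iff : (∃ A : Set (List Bool), InNP A ∧
      ∀ I : Inst, Valid I → (bits I ∈ A ↔ ¬ HasOddPaths I)) ↔
    ∀ L : Set (List Bool), InNP L ↔ InCoNP L := by
  constructor
  · rintro ⟨A, hA, hAI⟩
    have key : ∀ L : Set (List Bool), InNP L → InCoNP L := by
      intro L hL
      obtain ⟨f, hf, h⟩ := hard_bipartite L hL
      refine Pool.Agent.H622R2.InNP.of_reduces ⟨fun x => bits (f x), hf, fun x => ?_⟩ hA
      rw [Set.mem_compl_iff, hAI _ (h x).1, (h x).2.2]
    intro L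
    refine ⟨key L, fun hL => ?_⟩
    have h3 : InNP Lᶜᶜ := key Lᶜ hL
    rwa [compl_compl] at h3
  · intro h
    refine ⟨(lang OddPaths)ᶜ, inCoNPP_iff.2 h, fun I hI => ?_⟩
    rw [Set.mem_compl_iff, bits_mem_lang]
    exact not_congr ⟨fun h => h.2, fun h => ⟨hI, h⟩⟩

end Pool.Agent.NPC.OddP
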