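import Pool.Agent.W948.OP.PolyRed
import Pool.Agent.H601R2.PP

/-!
# ODD-PATHS is in NP
-/

namespace Pool.Agent.NPC.OddP

open Pool.Agent.NPC

section General

variable {α β : Type} [TEnc α] [TEnc β]

theorem pairwise_iff_zipIdx {β : Type} (l : List β) (R : β → β → Prop) :
    (∀ x ∈ l.zipIdx, ∀ y ∈ l.zipIdx, ¬ x.2 < y.2 ∨ R x.1 y.1) ↔ l.Pairwise R := by
  rw [List.pairwise_iff_getElem]
  constructor
  · intro h i j hi hj hij
    have h1 := h (l[i], i) (by
      rw [List.mem_zipIdx_iff_getElem?]; simp [hi]) (l[j], j) (by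
      rw [List.mem_zipIdx_iff_getElem?]; simp [hj])
    rcases h1 with h1 | h1
    · exact absurd hij h1
    · exact h1
  · rintro h ⟨x, i⟩ hx ⟨y, j⟩ hy
    rw [List.mem_zipIdx_iff_getElem?] at hx hy
    simp only at hx hy ⊢
    by_cases hij : i < j
    · right
      obtain ⟨hi, hi'⟩ := List.getElem?_eq_some_iff.1 hx
      obtain ⟨hj, hj'⟩ := List.getElem?_eq_some_iff.1 hy
      have := h i j hi hj hij
      rwa [hi', hj'] at this
    · exact Or.inl hij

theorem pp_pairwise {l : α → List β} (hl : Poly l) {R : β → β → Prop}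
    (hR : PP (fun x : β × β => R x.1 x.2)) : PP (fun a => (l a).Pairwise R) := by
  refine PP.congr (p := fun a => ∀ x ∈ (l a).zipIdx, ∀ y ∈ (l a).zipIdx, ¬ x.2 < y.2 ∨ R x.1 y.1)
    ?_ (fun a => pairwise_iff_zipIdx _ R)
  refine PP.ball (r := fun a (x : β × ℕ) => ∀ y ∈ (l a).zipIdx, ¬ x.2 < y.2 ∨ R x.1 y.1)
    (Poly.zipIdx hl) ?_
  refine PP.ball (l := fun z : α × (β × ℕ) => (l z.1).zipIdx)
    (r := fun (z : α × (β × ℕ)) (y : β × ℕ) => ¬ z.2.2 < y.2 ∨ R z.2.1 y.1)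
    (Poly.zipIdx (hl.comp (Poly.fst Poly.id))) ?_
  refine PP.or (PP.not (PP.lt (by fun_prop) (by fun_prop))) ?_
  exact hR.comp (f := fun x : (α × β × ℕ) × β × ℕ => (x.1.2.1, x.2.1)) (by fun_prop)

theorem pp_nodup {l : α → List β} (hl : Poly l) : PP (fun a => (l a).Nodup) :=
  pp_pairwise hl (R := fun x y => x ≠ y) (PP.ne (by fun_prop) (by fun_prop))

end General

theorem isWalk_iff (E : List (ℕ × ℕ)) : ∀ (s : List (ℕ × ℕ)) (u : ℕ), IsWalk E u s ↔
    ∀ x ∈ (u :: s.map Prod.snd).zip s, Joins E x.2.1 x.1 x.2.2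
  | [], u => by simp [IsWalk]
  | (e, v) :: s, u => by
    have e1 : (u :: ((e, v) :: s).map Prod.snd).zip ((e, v) :: s) =
        (u, (e, v)) :: (v :: s.map Prod.snd).zip s := rfl
    rw [e1, List.forall_mem_cons, ← isWalk_iff E s v]
    rfl

theorem getLastD_eq (l : List ℕ) : l.getLastD 0 = l.reverse.head?.getD 0 := by
  rw [List.head?_reverse, List.getLastD_eq_getLast?]

theorem dropLast_eq (l : List ℕ) : l.dropLast = l.reverse.tail.reverse := by
  rw [List.tail_reverse, List.reverse_reverse]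

section Fun

variable {α : Type} [TEnc α]

@[fun_prop]
theorem poly_verts {p : α → Pth} (hp : Poly p) : Poly (fun a => verts (p a)) := by
  unfold verts
  fun_prop

@[fun_prop]
theorem poly_edges {p : α → Pth} (hp : Poly p) : Poly (fun a => edges (p a)) := by
  unfold edges
  fun_prop

@[fun_prop]
theorem poly_len {p : α → Pth} (hp : Poly p) : Poly (fun a => len (p a)) := by
  unfold len
  fun_prop

@[fun_prop]
theorem poly_final {p : α → Pth} (hp : Poly p) : Poly (fun a => final (p a)) := by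
  unfold final
  simp only [getLastD_eq]
  fun_prop

@[fun_prop]
theorem poly_inner {p : α → Pth} (hp : Poly p) : Poly (fun a => inner (p a)) := by
  unfold inner
  simp only [dropLast_eq]
  fun_prop

end Fun

theorem pp_valid : PP Valid := by
  unfold Valid
  refine PP.and ?_ (PP.and (PP.lt (by fun_prop) (by fun_prop)) (PP.and (PP.and
    (pp_nodup (by fun_prop)) (PP.and (PP.eq (by fun_prop) (by fun_prop)) ?_)) (PP.and
    (pp_nodup (by fun_prop)) (PP.and (PP.eq (by fun_prop) (by fun_prop)) ?_))))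
  · refine PP.ball (l := fun I : Inst => I.1.2)
      (r := fun (I : Inst) (e : ℕ × ℕ) => e.1 ∈ I.1.1 ∧ e.2 ∈ I.1.1) (by fun_prop) ?_
    exact PP.and (PP.mem (by fun_prop) (by fun_prop)) (PP.mem (by fun_prop) (by fun_prop))
  · exact PP.ball (l := fun I : Inst => I.2.2.1) (r := fun (I : Inst) (x : ℕ) => x ∈ I.1.1)
      (by fun_prop) (PP.mem (by fun_prop) (by fun_prop))
  · exact PP.ball (l := fun I : Inst => I.2.2.2) (r := fun (I : Inst) (x : ℕ) => x ∈ I.1.1)
      (by fun_prop) (PP.mem (by fun_prop) (by fun_prop))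

theorem pp_isPath : PP (fun x : Inst × Pth => IsPath x.1.1 x.2) := by
  unfold IsPath
  refine PP.and (PP.mem (by fun_prop) (by fun_prop)) (PP.and ?_ (pp_nodup (by fun_prop)))
  refine PP.congr (p := fun x : Inst × Pth => ∀ y ∈ (x.2.1 :: x.2.2.map Prod.snd).zip x.2.2,
    Joins x.1.1.2 y.2.1 y.1 y.2.2) ?_ (fun x => (isWalk_iff _ _ _).symm)
  refine PP.ball (l := fun x : Inst × Pth => (x.2.1 :: x.2.2.map Prod.snd).zip x.2.2)
    (r := fun x (y : ℕ × (ℕ × ℕ)) => Joins x.1.1.2 y.2.1 y.1 y.2.2) (by fun_prop) ?_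
  unfold Joins
  exact PP.or (PP.eq (by fun_prop) (by fun_prop)) (PP.eq (by fun_prop) (by fun_prop))

theorem pp_good : PP (fun x : Inst × Pth =>
    IsXYPath x.1.1 x.1.2.2.1 x.1.2.2.2 x.2 ∧ Odd (len x.2)) := by
  unfold IsXYPath
  refine PP.and (PP.and pp_isPath (PP.and (PP.mem (by fun_prop) (by fun_prop)) (PP.and
    (PP.mem (by fun_prop) (by fun_prop)) ?_))) ?_
  · refine PP.ball (l := fun x : Inst × Pth => inner x.2)
      (r := fun x v => v ∉ x.1.2.2.1 ∧ v ∉ x.1.2.2.2) (by fun_prop) ?_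
    exact PP.and (PP.not (PP.mem (by fun_prop) (by fun_prop)))
      (PP.not (PP.mem (by fun_prop) (by fun_prop)))
  · refine PP.congr (p := fun x : Inst × Pth => len x.2 % 2 = 1) ?_
      (fun x => Nat.odd_iff.symm)
    exact PP.eq (by fun_prop) (by fun_prop)

theorem pp_pair : PP (fun x : Pth × Pth => ¬ SameEdges x.1 x.2 ∧ InternallyDisjoint x.1 x.2) := by
  unfold SameEdges InternallyDisjoint
  refine PP.and (PP.not (PP.and ?_ ?_)) ?_
  · exact PP.ball (l := fun x : Pth × Pth => edges x.1) (r := fun x e => e ∈ edges x.2)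
      (by fun_prop) (PP.mem (by fun_prop) (by fun_prop))
  · exact PP.ball (l := fun x : Pth × Pth => edges x.2) (r := fun x e => e ∈ edges x.1)
      (by fun_prop) (PP.mem (by fun_prop) (by fun_prop))
  · exact PP.ball (l := fun x : Pth × Pth => inner x.1) (r := fun x e => e ∉ inner x.2)
      (by fun_prop) (PP.not (PP.mem (by fun_prop) (by fun_prop)))

/-- The certificate is correct. -/
def Cert (x : Inst × List Pth) : Prop :=
  Valid x.1 ∧ x.2.length = x.1.2.1 ∧
    (∀ p ∈ x.2, IsXYPath x.1.1 x.1.2.2.1 x.1.2.2.2 p ∧ Odd (len p)) ∧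
    x.2.Pairwise (fun p q => ¬ SameEdges p q ∧ InternallyDisjoint p q)

theorem pp_cert : PP Cert := by
  unfold Cert
  refine PP.and (pp_valid.comp (by fun_prop)) (PP.and (PP.eq (by fun_prop) (by fun_prop))
    (PP.and ?_ (pp_pairwise (by fun_prop) pp_pair)))
  refine PP.ball (l := fun x : Inst × List Pth => x.2)
    (r := fun x p => IsXYPath x.1.1 x.1.2.2.1 x.1.2.2.2 p ∧ Odd (len p)) (by fun_prop) ?_
  exact pp_good.comp (f := fun y : (Inst × List Pth) × Pth => (y.1.1, y.2)) (by fun_prop)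

/-! ### The size of certificates -/

theorem IsWalk.mem {E : List (ℕ × ℕ)} {V : List ℕ} (hE : ∀ e ∈ E, e.1 ∈ V ∧ e.2 ∈ V) :
    ∀ {s : List (ℕ × ℕ)} {u : ℕ}, IsWalk E u s → ∀ x ∈ s, x.1 < E.length ∧ x.2 ∈ V
  | [], _, _, x, hx => by simp at hx
  | (e, v) :: s, u, h, x, hx => by
    rcases List.mem_cons.1 hx with rfl | hx
    · rcases h.1 with h | h
      · obtain ⟨h1, h2⟩ := List.getElem?_eq_some_iff.1 h
        exact ⟨h1, (hE _ (List.mem_of_getElem? h)).2⟩
      · obtain ⟨h1, h2⟩ := List.getElem?_eq_some_iff.1 h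
        exact ⟨h1, (hE _ (List.mem_of_getElem? h)).1⟩
    · exact IsWalk.mem hE h.2 x hx

theorem sz_path {I : Inst} (hV : Valid I) {p : Pth} (hp : IsPath I.1 p) :
    sz p ≤ sz I + (sz I * (5 * sz I + 3) + 1) + 1 := by
  obtain ⟨h0, hw, hnd⟩ := hp
  have e1 : sz I = sz I.1 + sz I.2 + 1 := sz_pair I.1 I.2
  have e2 : sz I.1 = sz I.1.1 + sz I.1.2 + 1 := sz_pair I.1.1 I.1.2
  have h1 : sz p.1 < sz I.1.1 := sz_le_of_mem h0
  have hsub : ∀ v ∈ verts p, v ∈ I.1.1 := by
    intro v hv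
    rcases List.mem_cons.1 hv with rfl | hv
    · exact h0
    · obtain ⟨x, hx, rfl⟩ := List.mem_map.1 hv
      exact (hw.mem hV.1 x hx).2
  have h2 : (verts p).length ≤ I.1.1.length := (List.subperm_of_subset hnd hsub).length_le
  have h3 : p.2.length ≤ sz I := by
    have : (verts p).length = p.2.length + 1 := by simp [verts]
    have := length_lt_sz I.1.1
    omega
  have h4 : sz p.2 ≤ p.2.length * (5 * sz I + 2 + 1) + 1 := by
    refine sz_le_length_mul _ _ fun x hx => ?_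
    obtain ⟨h5, h6⟩ := hw.mem hV.1 x hx
    have h7 : sz x = sz x.1 + sz x.2 + 1 := sz_pair x.1 x.2
    have h8 : sz x.2 < sz I.1.1 := sz_le_of_mem h6
    have h9 : sz x.1 ≤ 4 * x.1.size + 1 := sz_nat_le _
    have h10 : x.1.size ≤ x.1 := NPC.Poly.size_le_self _
    have h11 := length_lt_sz I.1.2
    omega
  have h5 : sz p = sz p.1 + sz p.2 + 1 := sz_pair p.1 p.2
  have h6 : p.2.length * (5 * sz I + 2 + 1) ≤ sz I * (5 * sz I + 3) := by
    apply Nat.mul_le_mul h3
    omega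
  omega

theorem sz_cert {I : Inst} {P : List Pth} (h : Cert (I, P)) :
    sz P ≤ sz I * (sz I + (sz I * (5 * sz I + 3) + 1) + 1 + 1) + 1 := by
  obtain ⟨hV, hl, hP, _⟩ := h
  simp only at hl
  have h1 : sz P ≤ P.length * (sz I + (sz I * (5 * sz I + 3) + 1) + 1 + 1) + 1 :=
    sz_le_length_mul _ _ fun p hp => sz_path hV (hP p hp).1.1
  have h2 : P.length ≤ sz I := by
    have e1 : sz I = sz I.1 + sz I.2 + 1 := sz_pair I.1 I.2
    have e2 : sz I.2 = sz I.2.1 + sz I.2.2 + 1 := sz_pair I.2.1 I.2.2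
    have e3 : sz I.2.2 = sz I.2.2.1 + sz I.2.2.2 + 1 := sz_pair I.2.2.1 I.2.2.2
    have h3 : I.2.2.1.length = I.2.1 := hV.2.2.1.2.1
    have hl' : P.length = I.2.1 := hl
    have h4 := length_lt_sz I.2.2.1
    omega
  exact h1.trans (Nat.add_le_add_right (Nat.mul_le_mul_right _ h2) 1)

theorem inNPP_oddPaths : InNPP OddPaths := by
  obtain ⟨b, hb, hb'⟩ := pp_cert
  refine inNPP_of (β := List Pth) hb (Polynomial.X * (Polynomial.X + (Polynomial.X *
    (5 * Polynomial.X + 3) + 1) + 1 + 1) + 1) fun I => ?_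
  constructor
  · rintro ⟨hV, P, h1, h2, h3⟩
    have hc : Cert (I, P) := ⟨hV, h1, h2, h3⟩
    refine ⟨P, ?_, (hb' _).2 hc⟩
    simpa using sz_cert hc
  · rintro ⟨P, _, h⟩
    obtain ⟨hV, h1, h2, h3⟩ := (hb' _).1 h
    exact ⟨hV, P, h1, h2, h3⟩

end Pool.Agent.NPC.OddP
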