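import Pool.Agent.W948.OP.Sound
import Pool.Agent.NPC.Dec

/-!
# The reduction is computable in polynomial time
-/

namespace Pool.Agent.NPC.OddP

open Pool.Agent.NPC

section

variable {α : Type} [TEnc α]

theorem poly_natPair {a b : α → ℕ} (ha : Poly a) (hb : Poly b) :
    Poly (fun x => Nat.pair (a x) (b x)) := by
  unfold Nat.pair
  exact Poly.ite (Poly.decide_lt ha hb) (Poly.add (Poly.mul hb hb) ha)
    (Poly.add (Poly.add (Poly.mul ha ha) ha) hb)

theorem poly_code {t i p : α → ℕ} (ht : Poly t) (hi : Poly i) (hp : Poly p) :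
    Poly (fun x => code (t x) (i x) (p x)) :=
  poly_natPair ht (poly_natPair hi hp)

theorem poly_lobe {b : α → Bool} {i p : α → ℕ} (hb : Poly b) (hi : Poly i) (hp : Poly p) :
    Poly (fun x => lobe (b x) (i x) (p x)) := by
  refine poly_code ?_ hi hp
  refine (Poly.cond hb (Poly.const 2) (Poly.const 3)).congr fun x => ?_
  unfold lk
  cases b x <;> rfl

theorem poly_nil {β : Type} [TEnc β] : Poly (fun _ : α => ([] : List β)) := Poly.const []

end

abbrev Fm : Type := List (Lit ℕ × Lit ℕ × Lit ℕ)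

theorem upoly_len : UPoly (fun φ : Fm => φ.length) := UPoly.length Poly.id

theorem upoly_n : UPoly (fun φ : Fm => 3 * φ.length) := (UPoly.const 3).mul upoly_len

theorem poly_edgesA : Poly (fun φ : Fm => edgesA (3 * φ.length) φ.length) := by
  have hi : Poly (fun x : Fm × ℕ => x.2) := Poly.snd Poly.id
  have hm : Poly (fun x : Fm × ℕ => x.1.length) := Poly.length (Poly.fst Poly.id)
  have z : Poly (fun _ : Fm × ℕ => 0) := Poly.const 0
  have h2 : Poly (fun x : Fm × ℕ => 2 * x.1.length + 1) :=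
    Poly.succ (Poly.mul (Poly.const 2) hm)
  have c : ∀ t : ℕ, Poly (fun x : Fm × ℕ => code t x.2 0) := fun t =>
    poly_code (Poly.const t) hi z
  refine Poly.flatMap (F := fun (φ : Fm) i => [(code 0 i 0, code 1 i 0), (code 1 i 0, lobe true i 0),
    (code 1 i 0, lobe false i 0), (lobe true i (2 * φ.length + 1), code 4 i 0),
    (lobe false i (2 * φ.length + 1), code 4 i 0), (code 4 i 0, code 5 i 0)])
    (UPoly.range upoly_n) ?_
  exact Poly.cons (Poly.pair (c 0) (c 1)) (Poly.cons (Poly.pair (c 1)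
    (poly_lobe (Poly.const true) hi z)) (Poly.cons (Poly.pair (c 1)
    (poly_lobe (Poly.const false) hi z)) (Poly.cons (Poly.pair
    (poly_lobe (Poly.const true) hi h2) (c 4)) (Poly.cons (Poly.pair
    (poly_lobe (Poly.const false) hi h2) (c 4)) (Poly.cons (Poly.pair (c 4) (c 5)) poly_nil)))))

theorem poly_edgesB : Poly (fun φ : Fm => edgesB (3 * φ.length) φ.length) := by
  have hi : Poly (fun x : (Fm × ℕ) × ℕ => x.1.2) := Poly.snd (Poly.fst Poly.id)
  have hp : Poly (fun x : (Fm × ℕ) × ℕ => x.2) := Poly.snd Poly.id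
  have hr : UPoly (fun x : Fm × ℕ => 2 * x.1.length + 1) :=
    ((UPoly.const 2).mul (upoly_len.comp (Poly.fst Poly.id))).add (UPoly.const 1)
  refine Poly.flatMap (F := fun (φ : Fm) i => (List.range (2 * φ.length + 1)).flatMap (fun p =>
    [(lobe true i p, lobe true i (p + 1)), (lobe false i p, lobe false i (p + 1))]))
    (UPoly.range upoly_n) ?_
  refine Poly.flatMap (F := fun (x : Fm × ℕ) p =>
    [(lobe true x.2 p, lobe true x.2 (p + 1)), (lobe false x.2 p, lobe false x.2 (p + 1))])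
    (UPoly.range hr) ?_
  exact Poly.cons (Poly.pair (poly_lobe (Poly.const true) hi hp)
    (poly_lobe (Poly.const true) hi (Poly.succ hp))) (Poly.cons (Poly.pair
    (poly_lobe (Poly.const false) hi hp) (poly_lobe (Poly.const false) hi (Poly.succ hp)))
    poly_nil)

theorem poly_edgesC : Poly edgesC := by
  have hj : Poly (fun x : Fm × ((Lit ℕ × Lit ℕ × Lit ℕ) × ℕ) => x.2.2) :=
    Poly.snd (Poly.snd Poly.id)
  have z : Poly (fun _ : Fm × ((Lit ℕ × Lit ℕ × Lit ℕ) × ℕ) => 0) := Poly.const 0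
  have hl : Poly (fun x : Fm × ((Lit ℕ × Lit ℕ × Lit ℕ) × ℕ) => lits x.2.1) := by
    have h1 : Poly (fun x : Fm × ((Lit ℕ × Lit ℕ × Lit ℕ) × ℕ) => x.2.1) :=
      Poly.fst (Poly.snd Poly.id)
    exact Poly.cons (Poly.fst h1) (Poly.cons (Poly.fst (Poly.snd h1))
      (Poly.cons (Poly.snd (Poly.snd h1)) poly_nil))
  have c : ∀ t : ℕ, Poly (fun x : Fm × ((Lit ℕ × Lit ℕ × Lit ℕ) × ℕ) => code t x.2.2 0) :=
    fun t => poly_code (Poly.const t) hj z
  refine Poly.flatMap (F := fun (_ : Fm) (q : (Lit ℕ × Lit ℕ × Lit ℕ) × ℕ) =>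
    [(code 6 q.2 0, code 7 q.2 0), (code 8 q.2 0, code 9 q.2 0)] ++
    (lits q.1).flatMap (fun l => [(code 7 q.2 0, lobe l.1 l.2 (2 * q.2 + 1)),
      (lobe l.1 l.2 (2 * q.2 + 2), code 8 q.2 0)])) (Poly.zipIdx Poly.id) ?_
  refine Poly.append (Poly.cons (Poly.pair (c 6) (c 7)) (Poly.cons (Poly.pair (c 8) (c 9))
    poly_nil)) ?_
  refine Poly.flatMap (F := fun (x : Fm × ((Lit ℕ × Lit ℕ × Lit ℕ) × ℕ)) (l : Bool × ℕ) =>
    [(code 7 x.2.2 0, lobe l.1 l.2 (2 * x.2.2 + 1)),
      (lobe l.1 l.2 (2 * x.2.2 + 2), code 8 x.2.2 0)]) hl ?_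
  have k : ∀ t : ℕ, Poly (fun y : (Fm × ((Lit ℕ × Lit ℕ × Lit ℕ) × ℕ)) × (Bool × ℕ) =>
      code t y.1.2.2 0) := fun t => (c t).comp (Poly.fst Poly.id)
  have d : ∀ e : ℕ, Poly (fun y : (Fm × ((Lit ℕ × Lit ℕ × Lit ℕ) × ℕ)) × (Bool × ℕ) =>
      lobe y.2.1 y.2.2 (2 * y.1.2.2 + e)) := fun e =>
    poly_lobe (Poly.fst (Poly.snd Poly.id)) (Poly.snd (Poly.snd Poly.id))
      (Poly.add (Poly.mul (Poly.const 2) (hj.comp (Poly.fst Poly.id))) (Poly.const e))
  exact Poly.cons (Poly.pair (k 7) (d 1)) (Poly.cons (Poly.pair (d 2) (k 8)) poly_nil)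

theorem poly_allVerts : Poly (fun φ : Fm => allVerts φ.length) := by
  have hi : Poly (fun x : Fm × ℕ => x.2) := Poly.snd Poly.id
  have z : Poly (fun _ : Fm × ℕ => 0) := Poly.const 0
  have c : ∀ t : ℕ, Poly (fun x : Fm × ℕ => code t x.2 0) := fun t =>
    poly_code (Poly.const t) hi z
  have hr : UPoly (fun x : Fm × ℕ => 2 * x.1.length + 2) :=
    ((UPoly.const 2).mul (upoly_len.comp (Poly.fst Poly.id))).add (UPoly.const 2)
  refine Poly.append ?_ ?_
  · refine Poly.flatMap (F := fun (φ : Fm) i => [code 0 i 0, code 1 i 0, code 4 i 0,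
      code 5 i 0] ++ (List.range (2 * φ.length + 2)).flatMap (fun p => [lobe true i p,
        lobe false i p])) (UPoly.range upoly_n) ?_
    refine Poly.append (Poly.cons (c 0) (Poly.cons (c 1) (Poly.cons (c 4) (Poly.cons (c 5)
      poly_nil)))) ?_
    refine Poly.flatMap (F := fun (x : Fm × ℕ) p => [lobe true x.2 p, lobe false x.2 p])
      (UPoly.range hr) ?_
    exact Poly.cons (poly_lobe (Poly.const true) (Poly.snd (Poly.fst Poly.id))
      (Poly.snd Poly.id)) (Poly.cons (poly_lobe (Poly.const false)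
      (Poly.snd (Poly.fst Poly.id)) (Poly.snd Poly.id)) poly_nil)
  · refine Poly.flatMap (F := fun (_ : Fm) j => [code 6 j 0, code 7 j 0, code 8 j 0,
      code 9 j 0]) (UPoly.range upoly_len) ?_
    exact Poly.cons (c 6) (Poly.cons (c 7) (Poly.cons (c 8) (Poly.cons (c 9) poly_nil)))

theorem poly_setX : Poly (fun φ : Fm => setX φ.length) := by
  have hi : Poly (fun x : Fm × ℕ => x.2) := Poly.snd Poly.id
  exact Poly.append
    (Poly.map (F := fun (_ : Fm) i => code 0 i 0) (UPoly.range upoly_n)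
      (poly_code (Poly.const 0) hi (Poly.const 0)))
    (Poly.map (F := fun (_ : Fm) i => code 6 i 0) (UPoly.range upoly_len)
      (poly_code (Poly.const 6) hi (Poly.const 0)))

theorem poly_setY : Poly (fun φ : Fm => setY φ.length) := by
  have hi : Poly (fun x : Fm × ℕ => x.2) := Poly.snd Poly.id
  exact Poly.append
    (Poly.map (F := fun (_ : Fm) i => code 5 i 0) (UPoly.range upoly_n)
      (poly_code (Poly.const 5) hi (Poly.const 0)))
    (Poly.map (F := fun (_ : Fm) i => code 9 i 0) (UPoly.range upoly_len)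
      (poly_code (Poly.const 9) hi (Poly.const 0)))

theorem poly_red : Poly red :=
  Poly.pair (Poly.pair poly_allVerts (Poly.append poly_edgesA (Poly.append poly_edgesB
    poly_edgesC))) (Poly.pair (upoly_n.add upoly_len).toPoly (Poly.pair poly_setX poly_setY))

theorem red_iff {φ : Fm} (hb : Bounded3 φ) (hne : φ ≠ []) : SAT3 φ ↔ OddPaths (red φ) :=
  ⟨fun h => ⟨red_valid hb hne, complete hb h⟩, fun h => sound hb h.2⟩

/-- The graph is bipartite, with colour classes given by a function. -/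
def Bipartite (G : MG) : Prop := ∃ c : ℕ → Bool, ∀ e ∈ G.2, c e.1 ≠ c e.2

theorem red_bipartite (φ : Fm) : Bipartite (red φ).1 := by
  refine ⟨fun v => decide (col v % 2 = 0), ?_⟩
  rintro ⟨u, v⟩ h
  simp only [red] at h
  rw [mem_allEdges] at h
  have := h.col
  simp only [ne_eq, decide_eq_decide]
  omega

theorem hardPr_oddPaths : HardPr (fun I : Inst => Valid I ∧ Bipartite I.1) OddPaths := by
  refine HardPr.trans (f := red) hardPr_SAT3b poly_red
    (fun φ h => ⟨red_valid h.2.1 h.2.2, red_bipartite φ⟩) ?_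
  intro φ h
  exact red_iff h.2.1 h.2.2

end Pool.Agent.NPC.OddP
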