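import Pool.Agent.W948.OP.Defs
import Pool.Agent.NPC.Sat2

/-!
# The reduction from 3SAT

For a formula with `m` clauses and `n = 3 m` variables: for every variable `i` a path
`X i, A i`, two parallel lobes with `2 m + 2` vertices each (for the two literals), and `B i, Y i`;
for every clause `j` vertices `X' j, S j, T j, Y' j`, where `S j` is joined to the vertices with
number `2 j + 1`, and `T j` to the vertices with number `2 j + 2`, of the lobes of its literals.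
-/

namespace Pool.Agent.NPC.OddP

open Pool.Agent.NPC

/-- The number of a vertex with kind `t` and indices `i` and `p`. -/
def code (t i p : ℕ) : ℕ := Nat.pair t (Nat.pair i p)

theorem code_inj {t i p t' i' p' : ℕ} : code t i p = code t' i' p' ↔ t = t' ∧ i = i' ∧ p = p' := by
  unfold code
  rw [Nat.pair_eq_pair, Nat.pair_eq_pair]

/-- The kind of the lobe of a literal. -/
def lk (b : Bool) : ℕ := if b then 2 else 3

/-- A vertex of a lobe. -/
def lobe (b : Bool) (i p : ℕ) : ℕ := code (lk b) i p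

/-- The colours of the vertices. -/
def col (v : ℕ) : ℕ :=
  match v.unpair.1 with
  | 0 => 0
  | 1 => 1
  | 2 => v.unpair.2.unpair.2 % 2
  | 3 => v.unpair.2.unpair.2 % 2
  | 4 => 0
  | 5 => 1
  | 6 => 1
  | 7 => 0
  | 8 => 1
  | _ => 0

theorem col_code (t i p : ℕ) : col (code t i p) =
    match t with
    | 0 => 0
    | 1 => 1
    | 2 => p % 2
    | 3 => p % 2
    | 4 => 0
    | 5 => 1
    | 6 => 1
    | 7 => 0
    | 8 => 1
    | _ => 0 := by
  simp [col, code]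

theorem col_lobe (b : Bool) (i p : ℕ) : col (lobe b i p) = p % 2 := by
  cases b <;> simp [lobe, lk, col_code]

/-- The literals of a clause. -/
def lits (c : Lit ℕ × Lit ℕ × Lit ℕ) : List (Bool × ℕ) := [c.1, c.2.1, c.2.2]

/-- The edges of the variable gadgets. -/
def edgesA (n m : ℕ) : List (ℕ × ℕ) :=
  (List.range n).flatMap (fun i => [(code 0 i 0, code 1 i 0), (code 1 i 0, lobe true i 0),
    (code 1 i 0, lobe false i 0), (lobe true i (2 * m + 1), code 4 i 0),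
    (lobe false i (2 * m + 1), code 4 i 0), (code 4 i 0, code 5 i 0)])

/-- The edges inside of the lobes. -/
def edgesB (n m : ℕ) : List (ℕ × ℕ) :=
  (List.range n).flatMap (fun i => (List.range (2 * m + 1)).flatMap (fun p =>
    [(lobe true i p, lobe true i (p + 1)), (lobe false i p, lobe false i (p + 1))]))

/-- The edges of the clause gadgets. -/
def edgesC (φ : List (Lit ℕ × Lit ℕ × Lit ℕ)) : List (ℕ × ℕ) :=
  φ.zipIdx.flatMap (fun q => [(code 6 q.2 0, code 7 q.2 0), (code 8 q.2 0, code 9 q.2 0)] ++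
    (lits q.1).flatMap (fun l => [(code 7 q.2 0, lobe l.1 l.2 (2 * q.2 + 1)),
      (lobe l.1 l.2 (2 * q.2 + 2), code 8 q.2 0)]))

/-- All edges. -/
def allEdges (φ : List (Lit ℕ × Lit ℕ × Lit ℕ)) : List (ℕ × ℕ) :=
  edgesA (3 * φ.length) φ.length ++ (edgesB (3 * φ.length) φ.length ++ edgesC φ)

/-- All vertices. -/
def allVerts (m : ℕ) : List ℕ :=
  (List.range (3 * m)).flatMap (fun i => [code 0 i 0, code 1 i 0, code 4 i 0, code 5 i 0] ++
    (List.range (2 * m + 2)).flatMap (fun p => [lobe true i p, lobe false i p])) ++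
  (List.range m).flatMap (fun j => [code 6 j 0, code 7 j 0, code 8 j 0, code 9 j 0])

/-- The set `X`. -/
def setX (m : ℕ) : List ℕ :=
  (List.range (3 * m)).map (fun i => code 0 i 0) ++ (List.range m).map (fun j => code 6 j 0)

/-- The set `Y`. -/
def setY (m : ℕ) : List ℕ :=
  (List.range (3 * m)).map (fun i => code 5 i 0) ++ (List.range m).map (fun j => code 9 j 0)

/-- The instance. -/
def red (φ : List (Lit ℕ × Lit ℕ × Lit ℕ)) : Inst :=
  ((allVerts φ.length, allEdges φ), 3 * φ.length + φ.length, setX φ.length, setY φ.length)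

/-- Adjacency. -/
def Adj (E : List (ℕ × ℕ)) (u v : ℕ) : Prop := (u, v) ∈ E ∨ (v, u) ∈ E

theorem Adj.symm {E : List (ℕ × ℕ)} {u v : ℕ} (h : Adj E u v) : Adj E v u := Or.symm h

/-- The kinds of edges. -/
inductive EK (φ : List (Lit ℕ × Lit ℕ × Lit ℕ)) : ℕ → ℕ → Prop
  | e1 (i : ℕ) (h : i < 3 * φ.length) : EK φ (code 0 i 0) (code 1 i 0)
  | e2 (i : ℕ) (b : Bool) (h : i < 3 * φ.length) : EK φ (code 1 i 0) (lobe b i 0)
  | e3 (i : ℕ) (b : Bool) (h : i < 3 * φ.length) : EK φ (lobe b i (2 * φ.length + 1)) (code 4 i 0)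
  | e4 (i : ℕ) (h : i < 3 * φ.length) : EK φ (code 4 i 0) (code 5 i 0)
  | e5 (i p : ℕ) (b : Bool) (h : i < 3 * φ.length) (hp : p < 2 * φ.length + 1) :
      EK φ (lobe b i p) (lobe b i (p + 1))
  | e6 (j : ℕ) (h : j < φ.length) : EK φ (code 6 j 0) (code 7 j 0)
  | e7 (j : ℕ) (h : j < φ.length) : EK φ (code 8 j 0) (code 9 j 0)
  | e8 (j : ℕ) (h : j < φ.length) (l : Bool × ℕ) (hl : l ∈ lits φ[j]) :
      EK φ (code 7 j 0) (lobe l.1 l.2 (2 * j + 1))
  | e9 (j : ℕ) (h : j < φ.length) (l : Bool × ℕ) (hl : l ∈ lits φ[j]) :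
      EK φ (lobe l.1 l.2 (2 * j + 2)) (code 8 j 0)

theorem mem_allEdges {φ : List (Lit ℕ × Lit ℕ × Lit ℕ)} {u v : ℕ} :
    (u, v) ∈ allEdges φ ↔ EK φ u v := by
  constructor
  · intro h
    simp only [allEdges, List.mem_append] at h
    rcases h with h | h | h
    · simp only [edgesA, List.mem_flatMap, List.mem_range] at h
      obtain ⟨i, hi, h⟩ := h
      simp only [List.mem_cons, Prod.mk.injEq, List.not_mem_nil, or_false] at h
      rcases h with ⟨rfl, rfl⟩ | ⟨rfl, rfl⟩ | ⟨rfl, rfl⟩ | ⟨rfl, rfl⟩ | ⟨rfl, rfl⟩ | ⟨rfl, rfl⟩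
      · exact EK.e1 i hi
      · exact EK.e2 i true hi
      · exact EK.e2 i false hi
      · exact EK.e3 i true hi
      · exact EK.e3 i false hi
      · exact EK.e4 i hi
    · simp only [edgesB, List.mem_flatMap, List.mem_range] at h
      obtain ⟨i, hi, p, hp, h⟩ := h
      simp only [List.mem_cons, Prod.mk.injEq, List.not_mem_nil, or_false] at h
      rcases h with ⟨rfl, rfl⟩ | ⟨rfl, rfl⟩
      · exact EK.e5 i p true hi hp
      · exact EK.e5 i p false hi hp
    · simp only [edgesC, List.mem_flatMap] at h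
      obtain ⟨⟨c, j⟩, hc, h⟩ := h
      rw [List.mem_zipIdx_iff_getElem?, List.getElem?_eq_some_iff] at hc
      obtain ⟨hj, hc⟩ := hc
      simp only at hj hc
      simp only [List.mem_append, List.mem_cons, Prod.mk.injEq, List.not_mem_nil, or_false,
        List.mem_flatMap] at h
      rcases h with (⟨rfl, rfl⟩ | ⟨rfl, rfl⟩) | ⟨l, hl, ⟨rfl, rfl⟩ | ⟨rfl, rfl⟩⟩
      · exact EK.e6 j hj
      · exact EK.e7 j hj
      · exact EK.e8 j hj l (by rw [hc]; exact hl)
      · exact EK.e9 j hj l (by rw [hc]; exact hl)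
  · intro h
    simp only [allEdges, List.mem_append]
    cases h with
    | e1 i h =>
      left; simp only [edgesA, List.mem_flatMap, List.mem_range]
      exact ⟨i, h, by simp⟩
    | e2 i b h =>
      left; simp only [edgesA, List.mem_flatMap, List.mem_range]
      exact ⟨i, h, by cases b <;> simp⟩
    | e3 i b h =>
      left; simp only [edgesA, List.mem_flatMap, List.mem_range]
      exact ⟨i, h, by cases b <;> simp⟩
    | e4 i h =>
      left; simp only [edgesA, List.mem_flatMap, List.mem_range]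
      exact ⟨i, h, by simp⟩
    | e5 i p b h hp =>
      right; left; simp only [edgesB, List.mem_flatMap, List.mem_range]
      exact ⟨i, h, p, hp, by cases b <;> simp⟩
    | e6 j h =>
      right; right; simp only [edgesC, List.mem_flatMap]
      exact ⟨(φ[j], j), List.mem_zipIdx_iff_getElem?.2 (List.getElem?_eq_getElem h), by simp⟩
    | e7 j h =>
      right; right; simp only [edgesC, List.mem_flatMap]
      exact ⟨(φ[j], j), List.mem_zipIdx_iff_getElem?.2 (List.getElem?_eq_getElem h), by simp⟩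
    | e8 j h l hl =>
      right; right; simp only [edgesC, List.mem_flatMap]
      refine ⟨(φ[j], j), List.mem_zipIdx_iff_getElem?.2 (List.getElem?_eq_getElem h), ?_⟩
      rw [List.mem_append]
      right
      exact List.mem_flatMap.2 ⟨l, hl, by simp⟩
    | e9 j h l hl =>
      right; right; simp only [edgesC, List.mem_flatMap]
      refine ⟨(φ[j], j), List.mem_zipIdx_iff_getElem?.2 (List.getElem?_eq_getElem h), ?_⟩
      rw [List.mem_append]
      right
      exact List.mem_flatMap.2 ⟨l, hl, by simp⟩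

theorem lk_ne {b : Bool} : lk b ≠ 0 ∧ lk b ≠ 1 ∧ lk b ≠ 4 ∧ lk b ≠ 5 ∧ lk b ≠ 6 ∧ lk b ≠ 7 ∧
    lk b ≠ 8 ∧ lk b ≠ 9 := by
  cases b <;> simp [lk]

theorem lk_inj {b c : Bool} : lk b = lk c ↔ b = c := by
  cases b <;> cases c <;> simp [lk]

theorem lobe_inj {b c : Bool} {i p j q : ℕ} : lobe b i p = lobe c j q ↔ b = c ∧ i = j ∧ p = q := by
  unfold lobe
  rw [code_inj, lk_inj]

theorem EK.col {φ : List (Lit ℕ × Lit ℕ × Lit ℕ)} {u v : ℕ} (h : EK φ u v) :
    (col u + col v) % 2 = 1 := by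
  cases h with
  | e1 i h => simp [col_code]
  | e2 i b h => simp [col_code, col_lobe]
  | e3 i b h => simp only [col_code, col_lobe]; omega
  | e4 i h => simp [col_code]
  | e5 i p b h hp => simp only [col_lobe]; omega
  | e6 j h => simp [col_code]
  | e7 j h => simp [col_code]
  | e8 j h l hl => simp only [col_code, col_lobe]; omega
  | e9 j h l hl => simp only [col_code, col_lobe]; omega

theorem mem_setX {m v : ℕ} : v ∈ setX m ↔ (∃ i < 3 * m, v = code 0 i 0) ∨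
    ∃ j < m, v = code 6 j 0 := by
  simp only [setX, List.mem_append, List.mem_map, List.mem_range]
  constructor
  · rintro (⟨i, hi, rfl⟩ | ⟨j, hj, rfl⟩)
    · exact Or.inl ⟨i, hi, rfl⟩
    · exact Or.inr ⟨j, hj, rfl⟩
  · rintro (⟨i, hi, rfl⟩ | ⟨j, hj, rfl⟩)
    · exact Or.inl ⟨i, hi, rfl⟩
    · exact Or.inr ⟨j, hj, rfl⟩

theorem mem_setY {m v : ℕ} : v ∈ setY m ↔ (∃ i < 3 * m, v = code 5 i 0) ∨
    ∃ j < m, v = code 9 j 0 := by
  simp only [setY, List.mem_append, List.mem_map, List.mem_range]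
  constructor
  · rintro (⟨i, hi, rfl⟩ | ⟨j, hj, rfl⟩)
    · exact Or.inl ⟨i, hi, rfl⟩
    · exact Or.inr ⟨j, hj, rfl⟩
  · rintro (⟨i, hi, rfl⟩ | ⟨j, hj, rfl⟩)
    · exact Or.inl ⟨i, hi, rfl⟩
    · exact Or.inr ⟨j, hj, rfl⟩

theorem setX_nodup (m : ℕ) : (setX m).Nodup := by
  rw [setX, List.nodup_append]
  refine ⟨List.Nodup.map (fun i j h => (code_inj.1 h).2.1) List.nodup_range,
    List.Nodup.map (fun i j h => (code_inj.1 h).2.1) List.nodup_range, ?_⟩
  intro a ha b hb hab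
  subst hab
  simp only [List.mem_map, List.mem_range] at ha hb
  obtain ⟨i, _, rfl⟩ := ha
  obtain ⟨j, _, h⟩ := hb
  exact absurd (code_inj.1 h).1 (by decide)

theorem setY_nodup (m : ℕ) : (setY m).Nodup := by
  rw [setY, List.nodup_append]
  refine ⟨List.Nodup.map (fun i j h => (code_inj.1 h).2.1) List.nodup_range,
    List.Nodup.map (fun i j h => (code_inj.1 h).2.1) List.nodup_range, ?_⟩
  intro a ha b hb hab
  subst hab
  simp only [List.mem_map, List.mem_range] at ha hb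
  obtain ⟨i, _, rfl⟩ := ha
  obtain ⟨j, _, h⟩ := hb
  exact absurd (code_inj.1 h).1 (by decide)

theorem mem_allVerts {m v : ℕ} : v ∈ allVerts m ↔
    (∃ i < 3 * m, v = code 0 i 0 ∨ v = code 1 i 0 ∨ v = code 4 i 0 ∨ v = code 5 i 0 ∨
      ∃ p < 2 * m + 2, ∃ b, v = lobe b i p) ∨
    ∃ j < m, v = code 6 j 0 ∨ v = code 7 j 0 ∨ v = code 8 j 0 ∨ v = code 9 j 0 := by
  simp only [allVerts, List.mem_append, List.mem_flatMap, List.mem_range, List.mem_cons,
    List.not_mem_nil, or_false]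
  constructor
  · rintro (⟨i, hi, (h | h | h | h) | ⟨p, hp, h | h⟩⟩ | h)
    · exact Or.inl ⟨i, hi, Or.inl h⟩
    · exact Or.inl ⟨i, hi, Or.inr (Or.inl h)⟩
    · exact Or.inl ⟨i, hi, Or.inr (Or.inr (Or.inl h))⟩
    · exact Or.inl ⟨i, hi, Or.inr (Or.inr (Or.inr (Or.inl h)))⟩
    · exact Or.inl ⟨i, hi, Or.inr (Or.inr (Or.inr (Or.inr ⟨p, hp, true, h⟩)))⟩
    · exact Or.inl ⟨i, hi, Or.inr (Or.inr (Or.inr (Or.inr ⟨p, hp, false, h⟩)))⟩
    · exact Or.inr h
  · rintro (⟨i, hi, h | h | h | h | ⟨p, hp, b, h⟩⟩ | h)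
    · exact Or.inl ⟨i, hi, Or.inl (Or.inl h)⟩
    · exact Or.inl ⟨i, hi, Or.inl (Or.inr (Or.inl h))⟩
    · exact Or.inl ⟨i, hi, Or.inl (Or.inr (Or.inr (Or.inl h)))⟩
    · exact Or.inl ⟨i, hi, Or.inl (Or.inr (Or.inr (Or.inr h)))⟩
    · exact Or.inl ⟨i, hi, Or.inr ⟨p, hp, by cases b; exacts [Or.inr h, Or.inl h]⟩⟩
    · exact Or.inr h

theorem lits_lt {φ : List (Lit ℕ × Lit ℕ × Lit ℕ)} (hb : Bounded3 φ) {j : ℕ}
    (hj : j < φ.length) {l : Bool × ℕ} (hl : l ∈ lits φ[j]) : l.2 < 3 * φ.length := by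
  obtain ⟨h1, h2, h3⟩ := hb _ (List.getElem_mem hj)
  simp only [lits, List.mem_cons, List.not_mem_nil, or_false] at hl
  rcases hl with rfl | rfl | rfl
  · exact h1
  · exact h2
  · exact h3

theorem red_valid {φ : List (Lit ℕ × Lit ℕ × Lit ℕ)} (hb : Bounded3 φ) (hne : φ ≠ []) :
    Valid (red φ) := by
  have hm : 0 < φ.length := List.length_pos_iff.2 hne
  refine ⟨?_, ?_, ⟨setX_nodup _, ?_, ?_⟩, ⟨setY_nodup _, ?_, ?_⟩⟩
  · rintro ⟨u, v⟩ h
    simp only [red] at h ⊢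
    rw [mem_allEdges] at h
    rw [mem_allVerts, mem_allVerts]
    cases h with
    | e1 i h => exact ⟨Or.inl ⟨i, h, by simp⟩, Or.inl ⟨i, h, by simp⟩⟩
    | e2 i b h =>
      exact ⟨Or.inl ⟨i, h, by simp⟩, Or.inl ⟨i, h, Or.inr (Or.inr (Or.inr (Or.inr
        ⟨0, by omega, b, rfl⟩)))⟩⟩
    | e3 i b h =>
      exact ⟨Or.inl ⟨i, h, Or.inr (Or.inr (Or.inr (Or.inr ⟨_, by omega, b, rfl⟩)))⟩,
        Or.inl ⟨i, h, by simp⟩⟩
    | e4 i h => exact ⟨Or.inl ⟨i, h, by simp⟩, Or.inl ⟨i, h, by simp⟩⟩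
    | e5 i p b h hp =>
      exact ⟨Or.inl ⟨i, h, Or.inr (Or.inr (Or.inr (Or.inr ⟨_, by omega, b, rfl⟩)))⟩,
        Or.inl ⟨i, h, Or.inr (Or.inr (Or.inr (Or.inr ⟨_, by omega, b, rfl⟩)))⟩⟩
    | e6 j h => exact ⟨Or.inr ⟨j, h, by simp⟩, Or.inr ⟨j, h, by simp⟩⟩
    | e7 j h => exact ⟨Or.inr ⟨j, h, by simp⟩, Or.inr ⟨j, h, by simp⟩⟩
    | e8 j h l hl =>
      exact ⟨Or.inr ⟨j, h, by simp⟩, Or.inl ⟨l.2, lits_lt hb h hl,
        Or.inr (Or.inr (Or.inr (Or.inr ⟨_, by omega, l.1, rfl⟩)))⟩⟩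
    | e9 j h l hl =>
      exact ⟨Or.inl ⟨l.2, lits_lt hb h hl,
        Or.inr (Or.inr (Or.inr (Or.inr ⟨_, by omega, l.1, rfl⟩)))⟩, Or.inr ⟨j, h, by simp⟩⟩
  · simp only [red]; omega
  · simp [red, setX]
  · intro v hv
    simp only [red] at hv ⊢
    rw [mem_setX] at hv
    rw [mem_allVerts]
    rcases hv with ⟨i, hi, rfl⟩ | ⟨j, hj, rfl⟩
    · exact Or.inl ⟨i, hi, by simp⟩
    · exact Or.inr ⟨j, hj, by simp⟩
  · simp [red, setY]
  · intro v hv
    simp only [red] at hv ⊢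
    rw [mem_setY] at hv
    rw [mem_allVerts]
    rcases hv with ⟨i, hi, rfl⟩ | ⟨j, hj, rfl⟩
    · exact Or.inl ⟨i, hi, by simp⟩
    · exact Or.inr ⟨j, hj, by simp⟩

end Pool.Agent.NPC.OddP
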