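import Pool.Agent.W948.OP.Complete

/-!
# Disjoint odd paths yield a satisfying assignment
-/

namespace Pool.Agent.NPC.OddP

open Pool.Agent.NPC

variable {φ : List (Lit ℕ × Lit ℕ × Lit ℕ)}

theorem joins_adj {E : List (ℕ × ℕ)} {e u v : ℕ} (h : Joins E e u v) : Adj E u v := by
  rcases h with h | h
  · exact Or.inl (List.mem_of_getElem? h)
  · exact Or.inr (List.mem_of_getElem? h)

/-! ### Neighbours -/

theorem nbr0 {i v : ℕ} (h : Adj (allEdges φ) (code 0 i 0) v) : v = code 1 i 0 := by
  rw [adj_iff] at h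
  generalize hu : code 0 i 0 = u at h
  rcases h with h | h <;> cases h <;> (try unfold lobe at hu) <;> rw [code_inj] at hu
  case inl.e1 j hj => rw [hu.2.1]
  all_goals first | omega | (exfalso; have := lk_ne (b := ‹Bool›); omega)

theorem nbr5 {i v : ℕ} (h : Adj (allEdges φ) (code 5 i 0) v) : v = code 4 i 0 := by
  rw [adj_iff] at h
  generalize hu : code 5 i 0 = u at h
  rcases h with h | h <;> cases h <;> (try unfold lobe at hu) <;> rw [code_inj] at hu
  case inr.e4 j hj => rw [hu.2.1]
  all_goals first | omega | (exfalso; have := lk_ne (b := ‹Bool›); omega)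

theorem nbr6 {i v : ℕ} (h : Adj (allEdges φ) (code 6 i 0) v) : v = code 7 i 0 := by
  rw [adj_iff] at h
  generalize hu : code 6 i 0 = u at h
  rcases h with h | h <;> cases h <;> (try unfold lobe at hu) <;> rw [code_inj] at hu
  case inl.e6 j hj => rw [hu.2.1]
  all_goals first | omega | (exfalso; have := lk_ne (b := ‹Bool›); omega)

theorem nbr9 {i v : ℕ} (h : Adj (allEdges φ) (code 9 i 0) v) : v = code 8 i 0 := by
  rw [adj_iff] at h
  generalize hu : code 9 i 0 = u at h
  rcases h with h | h <;> cases h <;> (try unfold lobe at hu) <;> rw [code_inj] at hu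
  case inr.e7 j hj => rw [hu.2.1]
  all_goals first | omega | (exfalso; have := lk_ne (b := ‹Bool›); omega)

theorem nbr7 {j v : ℕ} (h : Adj (allEdges φ) (code 7 j 0) v) : v = code 6 j 0 ∨
    ∃ (hj : j < φ.length) (l : Bool × ℕ), l ∈ lits φ[j] ∧ v = lobe l.1 l.2 (2 * j + 1) := by
  rw [adj_iff] at h
  generalize hu : code 7 j 0 = u at h
  rcases h with h | h <;> cases h <;> (try unfold lobe at hu) <;> rw [code_inj] at hu
  case inr.e6 j' hj => left; rw [hu.2.1]
  case inl.e8 j' hj l hl =>
    obtain ⟨_, rfl, _⟩ := hu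
    exact Or.inr ⟨hj, l, hl, rfl⟩
  all_goals first | omega | (exfalso; have := lk_ne (b := ‹Bool›); omega)

/-- The neighbours of a vertex of a lobe. -/
theorem nbrL {b : Bool} {i p v : ℕ} (h : Adj (allEdges φ) (lobe b i p) v) :
    (p = 0 ∧ v = code 1 i 0) ∨ (p = 2 * φ.length + 1 ∧ v = code 4 i 0) ∨ v = lobe b i (p + 1) ∨
    (∃ q, p = q + 1 ∧ v = lobe b i q) ∨ (∃ j < φ.length, v = code 7 j 0) ∨
    ∃ j < φ.length, v = code 8 j 0 := by
  have hk := lk_ne (b := b)
  rw [adj_iff] at h
  generalize hu : lobe b i p = u at h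
  rcases h with h | h
  · cases h with
    | e1 i' h => unfold lobe at hu; rw [code_inj] at hu; omega
    | e2 i' b' h => unfold lobe at hu; rw [code_inj] at hu; omega
    | e3 i' b' h =>
      rw [lobe_inj] at hu
      obtain ⟨rfl, rfl, rfl⟩ := hu
      exact Or.inr (Or.inl ⟨rfl, rfl⟩)
    | e4 i' h => unfold lobe at hu; rw [code_inj] at hu; omega
    | e5 i' p' b' h hp =>
      rw [lobe_inj] at hu
      obtain ⟨rfl, rfl, rfl⟩ := hu
      exact Or.inr (Or.inr (Or.inl rfl))
    | e6 j h => unfold lobe at hu; rw [code_inj] at hu; omega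
    | e7 j h => unfold lobe at hu; rw [code_inj] at hu; omega
    | e8 j h l hl => unfold lobe at hu; rw [code_inj] at hu; omega
    | e9 j h l hl => exact Or.inr (Or.inr (Or.inr (Or.inr (Or.inr ⟨j, h, rfl⟩))))
  · cases h with
    | e1 i' h => unfold lobe at hu; rw [code_inj] at hu; omega
    | e2 i' b' h =>
      rw [lobe_inj] at hu
      obtain ⟨rfl, rfl, rfl⟩ := hu
      exact Or.inl ⟨rfl, rfl⟩
    | e3 i' b' h => unfold lobe at hu; rw [code_inj] at hu; omega
    | e4 i' h => unfold lobe at hu; rw [code_inj] at hu; omega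
    | e5 i' p' b' h hp =>
      rw [lobe_inj] at hu
      obtain ⟨rfl, rfl, rfl⟩ := hu
      exact Or.inr (Or.inr (Or.inr (Or.inl ⟨p', rfl, rfl⟩)))
    | e6 j h => unfold lobe at hu; rw [code_inj] at hu; omega
    | e7 j h => unfold lobe at hu; rw [code_inj] at hu; omega
    | e8 j h l hl => exact Or.inr (Or.inr (Or.inr (Or.inr (Or.inl ⟨j, h, rfl⟩))))
    | e9 j h l hl => unfold lobe at hu; rw [code_inj] at hu; omega

/-- The neighbours of the first vertex of a variable gadget. -/
theorem nbr1 {i v : ℕ} (h : Adj (allEdges φ) (code 1 i 0) v) :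
    v = code 0 i 0 ∨ ∃ b, v = lobe b i 0 := by
  rw [adj_iff] at h
  generalize hu : code 1 i 0 = u at h
  rcases h with h | h <;> cases h <;> (try unfold lobe at hu) <;> rw [code_inj] at hu
  case inr.e1 j hj => left; rw [hu.2.1]
  case inl.e2 j b hj => right; exact ⟨b, by rw [hu.2.1]⟩
  all_goals first | omega | (exfalso; have := lk_ne (b := ‹Bool›); omega)

/-! ### Walks -/

theorem col_walk : ∀ (s : List (ℕ × ℕ)) (u : ℕ), IsWalk (allEdges φ) u s →
    (col u + s.length) % 2 = col (final (u, s)) % 2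
  | [], u, _ => by simp [final, verts]
  | (e, v) :: s, u, h => by
    have h1 := col_walk s v h.2
    have h2 : final (u, (e, v) :: s) = final (v, s) := by
      simp [final, verts]
    rw [h2, ← h1]
    have h3 : (col u + col v) % 2 = 1 := by
      rcases adj_iff.1 (joins_adj h.1) with h | h
      · exact h.col
      · rw [Nat.add_comm]; exact h.col
    simp only [List.length_cons]
    omega

/-- The vertices reached before the lobes are left. -/
def Before (i pT pF v : ℕ) : Prop :=
  v = code 0 i 0 ∨ v = code 1 i 0 ∨ (∃ p < pT, v = lobe true i p) ∨ ∃ p < pF, v = lobe false i p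

theorem before_walk {i pT pF : ℕ} (hT : pT ≤ 2 * φ.length + 1) (hF : pF ≤ 2 * φ.length + 1) :
    ∀ (s : List (ℕ × ℕ)) (u : ℕ), IsWalk (allEdges φ) u s → Before i pT pF u →
    (∀ v ∈ s.map Prod.snd, (∀ j < φ.length, v ≠ code 7 j 0 ∧ v ≠ code 8 j 0) ∧
      v ≠ lobe true i pT ∧ v ≠ lobe false i pF) →
    Before i pT pF (final (u, s))
  | [], u, _, hu, _ => by simpa [final, verts] using hu
  | (e, v) :: s, u, h, hu, ha => by
    have h2 : final (u, (e, v) :: s) = final (v, s) := by
      simp [final, verts]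
    rw [h2]
    refine before_walk hT hF s v h.2 ?_ (fun w hw => ha w (by
      simp only [List.map_cons]; exact List.mem_cons_of_mem _ hw))
    obtain ⟨h3, h4, h5⟩ := ha v (by simp)
    have h6 := joins_adj h.1
    rcases hu with rfl | rfl | ⟨p, hp, rfl⟩ | ⟨p, hp, rfl⟩
    · exact Or.inr (Or.inl (nbr0 h6))
    · rcases nbr1 h6 with rfl | ⟨b, rfl⟩
      · exact Or.inl rfl
      · cases b
        · rcases Nat.eq_zero_or_pos pF with h7 | h7
          · exact absurd rfl (h7 ▸ h5)
          · exact Or.inr (Or.inr (Or.inr ⟨0, h7, rfl⟩))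
        · rcases Nat.eq_zero_or_pos pT with h7 | h7
          · exact absurd rfl (h7 ▸ h4)
          · exact Or.inr (Or.inr (Or.inl ⟨0, h7, rfl⟩))
    · rcases nbrL h6 with ⟨_, rfl⟩ | ⟨h7, rfl⟩ | rfl | ⟨q, rfl, rfl⟩ | ⟨j, hj, rfl⟩ | ⟨j, hj, rfl⟩
      · exact Or.inr (Or.inl rfl)
      · omega
      · rcases Nat.lt_or_ge (p + 1) pT with h7 | h7
        · exact Or.inr (Or.inr (Or.inl ⟨_, h7, rfl⟩))
        · have : p + 1 = pT := by omega
          exact absurd (by rw [this]) h4
      · exact Or.inr (Or.inr (Or.inl ⟨q, by omega, rfl⟩))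
      · exact absurd rfl (h3 j hj).1
      · exact absurd rfl (h3 j hj).2
    · rcases nbrL h6 with ⟨_, rfl⟩ | ⟨h7, rfl⟩ | rfl | ⟨q, rfl, rfl⟩ | ⟨j, hj, rfl⟩ | ⟨j, hj, rfl⟩
      · exact Or.inr (Or.inl rfl)
      · omega
      · rcases Nat.lt_or_ge (p + 1) pF with h7 | h7
        · exact Or.inr (Or.inr (Or.inr ⟨_, h7, rfl⟩))
        · have : p + 1 = pF := by omega
          exact absurd (by rw [this]) h5
      · exact Or.inr (Or.inr (Or.inr ⟨q, by omega, rfl⟩))
      · exact absurd rfl (h3 j hj).1
      · exact absurd rfl (h3 j hj).2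

/-- The second vertex is internal if it is not in `Y`. -/
theorem second_inner {G : MG} {X Y : List ℕ} {p : Pth} (hp : IsXYPath G X Y p) (hl : 1 ≤ len p) :
    ∃ v, Adj G.2 p.1 v ∧ v ∈ verts p ∧ (v ∉ Y → v ∈ inner p) := by
  obtain ⟨u, s⟩ := p
  match s, hl with
  | (e, v) :: s, _ =>
    refine ⟨v, joins_adj hp.1.2.1.1, by simp [verts], fun hv => ?_⟩
    match s with
    | [] =>
      exfalso
      apply hv
      have := hp.2.2.1
      simpa [final, verts] using this
    | (_, _) :: _ => simp [inner, verts]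

theorem IsWalk.append {E : List (ℕ × ℕ)} : ∀ {s t : List (ℕ × ℕ)} {u : ℕ}, IsWalk E u (s ++ t) →
    IsWalk E (final (u, s)) t
  | [], t, u, h => by simpa [final, verts] using h
  | (e, v) :: s, t, u, h => by
    have h2 : final (u, (e, v) :: s) = final (v, s) := by
      simp [final, verts]
    rw [h2]
    exact IsWalk.append h.2

/-- The last but one vertex is internal if it is not in `X`. -/
theorem penult_inner {G : MG} {X Y : List ℕ} {p : Pth} (hp : IsXYPath G X Y p) (hl : 1 ≤ len p) :
    ∃ v, Adj G.2 (final p) v ∧ (v ∉ X → v ∈ inner p) := by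
  obtain ⟨u, s⟩ := p
  rcases List.eq_nil_or_concat' s with rfl | ⟨s', ⟨e, w⟩, rfl⟩
  · simp [len] at hl
  · have h1 := IsWalk.append hp.1.2.1
    have h2 : final (u, s' ++ [(e, w)]) = w := by
      have : verts (u, s' ++ [(e, w)]) = (u :: s'.map Prod.snd) ++ [w] := by simp [verts]
      rw [final, this, List.getLastD_concat]
    rw [h2]
    refine ⟨final (u, s'), (joins_adj h1.1).symm, fun hv => ?_⟩
    match s' with
    | [] =>
      exfalso
      apply hv
      have := hp.2.1
      simpa [final, verts] using this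
    | (e', v') :: s'' =>
      have h3 : final (u, (e', v') :: s'') = final (v', s'') := by
        simp [final, verts]
      rw [h3]
      have h4 : inner (u, (e', v') :: s'' ++ [(e, w)]) = verts (v', s'') := by
        have : verts (u, (e', v') :: s'' ++ [(e, w)]) = u :: (verts (v', s'') ++ [w]) := by
          simp [verts]
        rw [inner, this, List.tail_cons, List.dropLast_concat]
      rw [h4]
      exact final_mem _

/-- In a list of `k` entries with pairwise different keys in a set of `k` keys, every key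
occurs. -/
theorem key_surj {α : Type} {P : List α} {X : List ℕ} {g : α → ℕ} (_ : X.Nodup)
    (hl : P.length = X.length) (hg : ∀ p ∈ P, g p ∈ X) (hP : P.Pairwise (fun p q => g p ≠ g q)) :
    ∀ x ∈ X, ∃ p ∈ P, g p = x := by
  have h1 : (P.map g).Nodup := by
    rw [List.Nodup, List.pairwise_map]
    exact hP
  have h2 : P.map g ⊆ X := by
    intro x hx
    obtain ⟨p, hp, rfl⟩ := List.mem_map.1 hx
    exact hg p hp
  have h3 : (P.map g).Perm X := by
    apply (List.subperm_of_subset h1 h2).perm_of_length_le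
    rw [List.length_map, hl]
  intro x hx
  have := h3.symm.subset hx
  obtain ⟨p, hp, h⟩ := List.mem_map.1 this
  exact ⟨p, hp, h⟩

theorem pairwise_ne {α : Type} {P : List α} {R : α → α → Prop} (hs : ∀ a b, R a b → R b a)
    (h : P.Pairwise R) {p q : α} (hp : p ∈ P) (hq : q ∈ P) (hne : p ≠ q) : R p q := by
  have : Std.Symm R := ⟨hs⟩
  exact h.forall hp hq hne

theorem sound (hb : Bounded3 φ) (h : HasOddPaths (red φ)) : SAT3 φ := by
  classical
  obtain ⟨P, hlen, hP, hpw⟩ := h
  simp only [red] at hlen hP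
  set m := φ.length with hm
  -- abbreviations
  have hpath : ∀ p ∈ P, IsXYPath (allVerts m, allEdges φ) (setX m) (setY m) p :=
    fun p hp => (hP p hp).1
  have hlen1 : ∀ p ∈ P, 1 ≤ len p := by
    intro p hp
    obtain ⟨r, hr⟩ := (hP p hp).2
    omega
  have hid : ∀ p ∈ P, ∀ q ∈ P, p ≠ q → ∀ v ∈ inner p, v ∉ inner q := by
    intro p hp q hq hne
    exact pairwise_ne (R := InternallyDisjoint) (fun a b h v hv hv' => h v hv' hv)
      (hpw.imp (fun h => h.2)) hp hq hne
  -- the vertex after the start
  have hstart : ∀ p ∈ P, ∀ i, (p.1 = code 0 i 0 → code 1 i 0 ∈ inner p) ∧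
      (p.1 = code 6 i 0 → code 7 i 0 ∈ inner p) := by
    intro p hp i
    obtain ⟨v, hv, _, hv'⟩ := second_inner (hpath p hp) (hlen1 p hp)
    constructor
    · intro h0
      rw [h0] at hv
      have := nbr0 hv
      subst this
      refine hv' fun h => ?_
      rw [mem_setY] at h
      rcases h with ⟨_, _, h⟩ | ⟨_, _, h⟩ <;> rw [code_inj] at h <;> omega
    · intro h0
      rw [h0] at hv
      have := nbr6 hv
      subst this
      refine hv' fun h => ?_
      rw [mem_setY] at h
      rcases h with ⟨_, _, h⟩ | ⟨_, _, h⟩ <;> rw [code_inj] at h <;> omega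
  have hend : ∀ p ∈ P, ∀ i, (final p = code 5 i 0 → code 4 i 0 ∈ inner p) ∧
      (final p = code 9 i 0 → code 8 i 0 ∈ inner p) := by
    intro p hp i
    obtain ⟨v, hv, hv'⟩ := penult_inner (hpath p hp) (hlen1 p hp)
    constructor
    · intro h0
      rw [h0] at hv
      have := nbr5 hv
      subst this
      refine hv' fun h => ?_
      rw [mem_setX] at h
      rcases h with ⟨_, _, h⟩ | ⟨_, _, h⟩ <;> rw [code_inj] at h <;> omega
    · intro h0
      rw [h0] at hv
      have := nbr9 hv
      subst this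
      refine hv' fun h => ?_
      rw [mem_setX] at h
      rcases h with ⟨_, _, h⟩ | ⟨_, _, h⟩ <;> rw [code_inj] at h <;> omega
  -- the starts and the ends are different
  have hsurX : ∀ x ∈ setX m, ∃ p ∈ P, p.1 = x := by
    refine key_surj (setX_nodup m) ?_ (fun p hp => (hpath p hp).2.1) ?_
    · rw [hlen]; simp [setX]
    · refine List.Pairwise.imp_of_mem ?_ hpw
      intro p q hp hq hpq heq
      have h1 := (hpath p hp).2.1
      rw [mem_setX] at h1
      rcases h1 with ⟨i, _, h1⟩ | ⟨i, _, h1⟩
      · exact hpq.2 _ ((hstart p hp i).1 h1) ((hstart q hq i).1 (heq ▸ h1))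
      · exact hpq.2 _ ((hstart p hp i).2 h1) ((hstart q hq i).2 (heq ▸ h1))
  have hsurY : ∀ y ∈ setY m, ∃ p ∈ P, final p = y := by
    refine key_surj (setY_nodup m) ?_ (fun p hp => (hpath p hp).2.2.1) ?_
    · rw [hlen]; simp [setY]
    · refine List.Pairwise.imp_of_mem ?_ hpw
      intro p q hp hq hpq heq
      have h1 := (hpath p hp).2.2.1
      rw [mem_setY] at h1
      rcases h1 with ⟨i, _, h1⟩ | ⟨i, _, h1⟩
      · exact hpq.2 _ ((hend p hp i).1 h1) ((hend q hq i).1 (heq ▸ h1))
      · exact hpq.2 _ ((hend p hp i).2 h1) ((hend q hq i).2 (heq ▸ h1))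
  -- the colours of the ends
  have hcol : ∀ p ∈ P, (col p.1 + 1) % 2 = col (final p) % 2 := by
    intro p hp
    have h1 := col_walk p.2 p.1 (hpath p hp).1.2.1
    obtain ⟨r, hr⟩ := (hP p hp).2
    unfold len at hr
    have h2 : ((p.1, p.2) : Pth) = p := rfl
    rw [h2] at h1
    omega
  -- the paths starting in a variable gadget avoid the clause vertices
  have havoid : ∀ p ∈ P, ∀ i, p.1 = code 0 i 0 → ∀ j < m, code 7 j 0 ∉ inner p ∧
      code 8 j 0 ∉ inner p := by
    intro p hp i hpi j hj
    constructor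
    · intro hv
      obtain ⟨q, hq, hqj⟩ := hsurX _ (mem_setX.2 (Or.inr ⟨j, hj, rfl⟩))
      by_cases hpq : p = q
      · subst hpq
        rw [hpi, code_inj] at hqj; omega
      · exact hid p hp q hq hpq _ hv ((hstart q hq j).2 hqj)
    · intro hv
      obtain ⟨q, hq, hqj⟩ := hsurY _ (mem_setY.2 (Or.inr ⟨j, hj, rfl⟩))
      by_cases hpq : p = q
      · subst hpq
        have := hcol p hp
        rw [hpi, hqj] at this
        simp [col_code] at this
      · exact hid p hp q hq hpq _ hv ((hend q hq j).2 hqj)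
  -- every such path contains one of the two lobes
  have hlobe : ∀ p ∈ P, ∀ i, p.1 = code 0 i 0 →
      (∀ r < 2 * m + 2, lobe true i r ∈ inner p) ∨ ∀ r < 2 * m + 2, lobe false i r ∈ inner p := by
    intro p hp i hpi
    by_contra hcon
    push Not at hcon
    obtain ⟨⟨pT, hT, hT'⟩, ⟨pF, hF, hF'⟩⟩ := hcon
    have hXlobe : ∀ b r, lobe b i r ∉ setX m ∧ lobe b i r ∉ setY m := by
      intro b r
      have := lk_ne (b := b)
      rw [mem_setX, mem_setY]
      constructor
      · rintro (⟨_, _, h⟩ | ⟨_, _, h⟩) <;> unfold lobe at h <;> rw [code_inj] at h <;> omega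
      · rintro (⟨_, _, h⟩ | ⟨_, _, h⟩) <;> unfold lobe at h <;> rw [code_inj] at h <;> omega
    have hnot : ∀ v, v ∈ verts p → v ∉ setX m → v ∉ setY m → v ∉ inner p → False := by
      intro v hv h1 h2 h3
      rcases mem_verts_cases hv with h | h | h
      · exact h1 (h ▸ (hpath p hp).2.1)
      · exact h2 (h ▸ (hpath p hp).2.2.1)
      · exact h3 h
    have h1 := before_walk (φ := φ) (i := i) (pT := pT) (pF := pF) (by omega) (by omega)
      p.2 p.1 (hpath p hp).1.2.1 (Or.inl hpi) (by
        intro v hv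
        have hv' : v ∈ verts p := List.mem_cons_of_mem _ hv
        refine ⟨fun j hj => ⟨?_, ?_⟩, ?_, ?_⟩
        · rintro rfl
          refine hnot _ hv' ?_ ?_ (havoid p hp i hpi j hj).1
          · rw [mem_setX]; rintro (⟨_, _, h⟩ | ⟨_, _, h⟩) <;> rw [code_inj] at h <;> omega
          · rw [mem_setY]; rintro (⟨_, _, h⟩ | ⟨_, _, h⟩) <;> rw [code_inj] at h <;> omega
        · rintro rfl
          refine hnot _ hv' ?_ ?_ (havoid p hp i hpi j hj).2
          · rw [mem_setX]; rintro (⟨_, _, h⟩ | ⟨_, _, h⟩) <;> rw [code_inj] at h <;> omega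
          · rw [mem_setY]; rintro (⟨_, _, h⟩ | ⟨_, _, h⟩) <;> rw [code_inj] at h <;> omega
        · rintro rfl
          exact hnot _ hv' (hXlobe _ _).1 (hXlobe _ _).2 hT'
        · rintro rfl
          exact hnot _ hv' (hXlobe _ _).1 (hXlobe _ _).2 hF')
    have h2 : final (p.1, p.2) ∈ setY m := (hpath p hp).2.2.1
    rcases h1 with h | h | ⟨r, _, h⟩ | ⟨r, _, h⟩
    · rw [h, mem_setY] at h2
      rcases h2 with ⟨_, _, h⟩ | ⟨_, _, h⟩ <;> rw [code_inj] at h <;> omega
    · rw [h, mem_setY] at h2
      rcases h2 with ⟨_, _, h⟩ | ⟨_, _, h⟩ <;> rw [code_inj] at h <;> omega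
    · exact (hXlobe true r).2 (h ▸ h2)
    · exact (hXlobe false r).2 (h ▸ h2)
  -- the assignment
  let τ : ℕ → Bool := fun i => decide (∀ p ∈ P, p.1 = code 0 i 0 →
    ∀ r < 2 * m + 2, lobe false i r ∈ inner p)
  have key : ∀ j (hj : j < m), ∃ l ∈ lits φ[j], l.2 < 3 * m → τ l.2 = l.1 := by
    intro j hj
    obtain ⟨q, hq, hqj⟩ := hsurX _ (mem_setX.2 (Or.inr ⟨j, hj, rfl⟩))
    -- the third vertex of the path
    obtain ⟨⟨hG, hwalk, hnd⟩, hX, hY, hinn⟩ := hpath q hq
    obtain ⟨u, s⟩ := q
    simp only at hqj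
    subst hqj
    match s with
    | [] =>
      exfalso
      rw [mem_setY] at hY
      simp only [final, verts, List.map_nil, List.getLastD_cons, List.getLastD_nil] at hY
      rcases hY with ⟨_, _, h⟩ | ⟨_, _, h⟩ <;> rw [code_inj] at h <;> omega
    | [(e, v)] =>
      exfalso
      have h1 := nbr6 (joins_adj hwalk.1)
      subst h1
      rw [mem_setY] at hY
      simp only [final, verts, List.map_cons, List.map_nil, List.getLastD_cons,
        List.getLastD_nil] at hY
      rcases hY with ⟨_, _, h⟩ | ⟨_, _, h⟩ <;> rw [code_inj] at h <;> omega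
    | (e, v) :: (e', v') :: s =>
      have h1 := nbr6 (joins_adj hwalk.1)
      subst h1
      have h2 := nbr7 (joins_adj hwalk.2.1)
      rcases h2 with h2 | ⟨_, l, hl, h2⟩
      · exfalso
        subst h2
        simp [verts] at hnd
      · refine ⟨l, hl, fun hlt => ?_⟩
        have hv' : v' ∈ inner (code 6 j 0, (e, code 7 j 0) :: (e', v') :: s) := by
          have h3 : v' ∈ verts (code 6 j 0, (e, code 7 j 0) :: (e', v') :: s) := by
            simp [verts]
          rcases mem_verts_cases h3 with h | h | h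
          · exfalso
            rw [h2] at h
            have := lk_ne (b := l.1)
            unfold lobe at h
            rw [code_inj] at h
            omega
          · exfalso
            rw [← h, h2, mem_setY] at hY
            have := lk_ne (b := l.1)
            rcases hY with ⟨_, _, h⟩ | ⟨_, _, h⟩ <;> unfold lobe at h <;> rw [code_inj] at h <;>
              omega
          · exact h
        -- no path of a variable contains `v'`
        have hno : ∀ p ∈ P, p.1 = code 0 l.2 0 → v' ∉ inner p := by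
          intro p hp hpi hv
          have hne : p ≠ (code 6 j 0, (e, code 7 j 0) :: (e', v') :: s) := by
            rintro rfl
            simp only at hpi
            rw [code_inj] at hpi
            omega
          exact hid p hp _ hq hne _ hv hv'
        obtain ⟨p, hp, hpi⟩ := hsurX _ (mem_setX.2 (Or.inl ⟨l.2, hlt, rfl⟩))
        obtain ⟨b, i⟩ := l
        simp only at *
        cases b
        · simp only [τ, decide_eq_false_iff_not, not_forall]
          refine ⟨p, hp, hpi, 2 * j + 1, by omega, ?_⟩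
          rw [← h2]
          exact hno p hp hpi
        · simp only [τ, decide_eq_true_eq]
          intro p' hp' hpi'
          rcases hlobe p' hp' i hpi' with h | h
          · exfalso
            have := h (2 * j + 1) (by omega)
            rw [← h2] at this
            exact hno p' hp' hpi' this
          · exact h
  refine ⟨τ, fun c hc => ?_⟩
  obtain ⟨j, hj, rfl⟩ := List.getElem_of_mem hc
  obtain ⟨l, hl, h⟩ := key j hj
  have h := h (lits_lt hb hj hl)
  simp only [lits, List.mem_cons, List.not_mem_nil, or_false] at hl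
  rcases hl with rfl | rfl | rfl
  · exact Or.inl h
  · exact Or.inr (Or.inl h)
  · exact Or.inr (Or.inr h)

end Pool.Agent.NPC.OddP
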